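import Pool.Agent.Work.MP_936a99_q81.Defs

/-!
# Block FACT (helper7)
-/

namespace Pool.Agent.Work.MP_936a99_q81

open Matrix Pool.Agent.Work.MP_936a99_al_h7

theorem FACT_left {n k : ℕ} {K : Type*} [Field K] (M : Matrix (Fin n) (Fin k) K)
    (h : LinearIndependent K M.col) : ∃ f' : Matrix (Fin k) (Fin n) K, f' * M = 1 := by
  have inj : Function.Injective M.mulVec := Matrix.mulVec_injective_iff.2 h
  obtain ⟨g, hg⟩ := LinearMap.exists_leftInverse_of_injective (Matrix.toLin' M)
    (LinearMap.ker_eq_bot.2 inj)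
  refine ⟨LinearMap.toMatrix' g, ?_⟩
  apply Matrix.toLin'.injective
  rw [Matrix.toLin'_mul, Matrix.toLin'_toMatrix', hg, Matrix.toLin'_one]

theorem FACT_right {n k : ℕ} {K : Type*} [Field K] (M : Matrix (Fin k) (Fin n) K)
    (h : LinearIndependent K M.row) : ∃ u' : Matrix (Fin n) (Fin k) K, M * u' = 1 := by
  obtain ⟨f', hf'⟩ := FACT_left Mᵀ h
  refine ⟨f'ᵀ, ?_⟩
  have := congrArg Matrix.transpose hf'
  rwa [Matrix.transpose_mul, Matrix.transpose_transpose, Matrix.transpose_one] at this

theorem fact_thm : Stmt_FACT := by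
  intro n p _ w c hw hns
  set a := (w : Matrix (Fin n) (Fin n) (ZMod p)) - c • 1 with ha
  have hwa : (w : Matrix (Fin n) (Fin n) (ZMod p)) = c • 1 + a := by rw [ha]; abel
  obtain ⟨P, Q, hP, hQ, hPQ⟩ := rank_fact a
  have hn : 0 < n := by
    rcases Nat.eq_zero_or_pos n with h0 | h0
    · subst h0
      exact absurd (Subsingleton.elim _ _) (hns 0)
    · exact h0
  have _ne : Nonempty (Fin n) := ⟨⟨0, hn⟩⟩
  have hc : c ≠ 0 := by
    intro h0
    have h1 : (w : Matrix (Fin n) (Fin n) (ZMod p)) ^ 2 = 0 := by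
      have : a = (w : Matrix (Fin n) (Fin n) (ZMod p)) := by rw [ha, h0, zero_smul, sub_zero]
      rw [← this]
      exact hw
    have h2 := congrArg Matrix.det h1
    rw [Matrix.det_pow, w.det_coe, one_pow, Matrix.det_zero] at h2
    exact one_ne_zero h2
  have hk1 : 1 ≤ a.rank := by
    rcases Nat.eq_zero_or_pos a.rank with h0 | h0
    · exfalso
      apply hns c
      have h1 : a = 0 := by
        rw [hPQ]
        apply Finset.sum_eq_zero
        intro j _
        exact absurd j.2 (by omega)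
      rw [hwa, h1, add_zero]
    · exact h0
  have hkn : a.rank ≤ n := Matrix.rank_le_width a
  set u : Matrix (Fin n) (Fin a.rank) (ZMod p) := Matrix.of (fun i j => c⁻¹ * P j i) with hu
  set f : Matrix (Fin a.rank) (Fin n) (ZMod p) := Matrix.of (fun j i => Q j i) with hf
  have huf : u * f = c⁻¹ • a := by
    ext i l
    have e1 : a i l = ∑ j, P j i * Q j l := by
      have := congrArg (fun M : Matrix (Fin n) (Fin n) (ZMod p) => M i l) hPQ
      simp only [Matrix.sum_apply, Matrix.vecMulVec_apply] at this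
      exact this
    rw [Matrix.mul_apply, Matrix.smul_apply, e1, smul_eq_mul, Finset.mul_sum]
    refine Finset.sum_congr rfl fun j _ => ?_
    rw [hu, hf, Matrix.of_apply, Matrix.of_apply, mul_assoc]
  have hw' : (w : Matrix (Fin n) (Fin n) (ZMod p)) = c • (1 + u * f) := by
    rw [huf, smul_add, smul_smul, mul_inv_cancel₀ hc, one_smul]
    exact hwa
  obtain ⟨u', hu'⟩ := FACT_right f (by
    have : f.row = Q := rfl
    rw [this]
    exact hQ)
  obtain ⟨f', hf'⟩ := FACT_left u (by
    have : u.col = fun j => c⁻¹ • P j := by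
      funext j i
      rfl
    rw [this]
    have h1 := hP.units_smul (fun _ => Units.mk0 c⁻¹ (inv_ne_zero hc))
    exact h1)
  have hsq : (u * f) * (u * f) = 0 := by
    rw [huf, Matrix.smul_mul, Matrix.mul_smul]
    have : a * a = 0 := by rw [← pow_two]; exact hw
    rw [this, smul_zero, smul_zero]
  have hfu : f * u = 0 := by
    have h1 : f * u = f' * ((u * f) * (u * f)) * u' := by
      calc f * u = (f' * u) * (f * u) * (f * u') := by rw [hf', hu', Matrix.one_mul, Matrix.mul_one]
        _ = f' * ((u * f) * (u * f)) * u' := by simp only [Matrix.mul_assoc]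
    rw [h1, hsq, Matrix.mul_zero, Matrix.zero_mul]
  exact ⟨a.rank, rfl, hk1, hkn, hc, u, f, hfu, ⟨f', hf'⟩, ⟨u', hu'⟩, hw'⟩

end Pool.Agent.Work.MP_936a99_q81
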