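import Pool.Agent.Work.MP_936a99_q81.Avail
import Pool.Agent.Work.MP_936a99_al_h7.Bound

/-!
# An element of rank one, and the numerical bound
-/

namespace Pool.Agent.Work.MP_936a99_q81

open Matrix Pool.Agent.Work.MP_936a99_al_h7

/-- a short element `γ` with `γ - s` of rank one -/
theorem exists_rank_one {n k : ℕ} {K : Type*} [Field K] {A : Set (SLn n K)}
    {u : Matrix (Fin n) (Fin k) K} {f : Matrix (Fin k) (Fin n) K} {L : ℕ} (hfu : f * u = 0)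
    {f' : Matrix (Fin k) (Fin n) K} (hf' : f' * u = 1) {u' : Matrix (Fin n) (Fin k) K}
    (hu' : f * u' = 1) (hk : 1 ≤ k) (hall : ∀ D, Av A u f L D) :
    ∃ (γ : SLn n K) (s : K), Reach A L γ ∧ ((γ : Matrix (Fin n) (Fin n) K) - s • 1).rank ≤ 1 ∧
      ∀ d : K, (γ : Matrix (Fin n) (Fin n) K) ≠ d • 1 := by
  classical
  let i0 : Fin k := ⟨0, by omega⟩
  set D : Matrix (Fin k) (Fin k) K := vecMulVec (Pi.single i0 1) (Pi.single i0 1) with hD
  have hD0 : D i0 i0 = 1 := by simp [hD, vecMulVec_apply]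
  obtain ⟨γ, s, hs, hγ, hsh⟩ := hall D
  refine ⟨γ, s, hγ, ?_, ?_⟩
  · have h1 : (γ : Matrix (Fin n) (Fin n) K) - s • 1 = (s • u) * D * f := by
      rw [hsh, smul_add, add_sub_cancel_left, Matrix.smul_mul, Matrix.smul_mul]
    rw [h1]
    refine (Matrix.rank_mul_le_left _ _).trans ((Matrix.rank_mul_le_right _ _).trans ?_)
    exact Matrix.rank_vecMulVec_le _ _
  · intro d hd
    set N : Matrix (Fin n) (Fin n) K := u * D * f with hN
    have hNN : N * N = 0 := by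
      rw [hN]
      have : u * D * f * (u * D * f) = u * D * (f * u) * D * f := by
        simp only [Matrix.mul_assoc]
      rw [this, hfu]
      simp
    have h1 : N = (s⁻¹ * d - 1) • 1 := by
      rw [hsh] at hd
      have h2 := congrArg (fun Z => s⁻¹ • Z) hd
      simp only [smul_smul, inv_mul_cancel₀ hs, one_smul] at h2
      rw [sub_smul, one_smul, ← h2, add_sub_cancel_left]
    have h2 : f' * N * u' = D := by
      rw [hN]
      have : f' * (u * D * f) * u' = (f' * u) * D * (f * u') := by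
        simp only [Matrix.mul_assoc]
      rw [this, hf', hu']
      simp
    -- `e • N = 0`
    have h3 : (s⁻¹ * d - 1) • N = 0 := by
      have h4 : ((s⁻¹ * d - 1) • (1 : Matrix (Fin n) (Fin n) K)) * N = (s⁻¹ * d - 1) • N := by
        rw [Matrix.smul_mul, Matrix.one_mul]
      rw [← h4, ← h1, hNN]
    rcases smul_eq_zero.1 h3 with h4 | h4
    · rw [h4, zero_smul] at h1
      rw [h1, Matrix.mul_zero, Matrix.zero_mul] at h2
      rw [← h2] at hD0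
      simp at hD0
    · rw [h4, Matrix.mul_zero, Matrix.zero_mul] at h2
      rw [← h2] at hD0
      simp at hD0

theorem fin_num {n k p l M d : ℕ} {x : ℝ} (hn : 2 ≤ n) (hk : k ≤ n) (hp : 1 ≤ p) (hl : 1 ≤ l)
    (hM : M ≤ 60 * (k + 1)) (hd : d ≤ k + 2) (hx : (n : ℝ) ≤ 3 * x) (hx3 : Real.log 3 ≤ x) :
    ((k ^ 2 * ((2 * M * d + 2) * (4 * ((k + 1) * (2 * (p * l) + 2 * (2 * n ^ 2 + 1) ^ 2))
      + p * l)) : ℕ) : ℝ) ≤ l * p * x ^ 257 := by
  have hx8 : (2 : ℝ) ≤ x ^ 8 := by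
    refine log_three_pow.trans ?_
    gcongr
  have hx0 : 0 ≤ x := (Real.log_nonneg (by norm_num)).trans hx3
  have hpl : 1 ≤ p * l := Nat.mul_pos hp hl
  have e1 : 2 * M * d + 2 ≤ 500 * n ^ 2 := by
    calc 2 * M * d + 2 ≤ 2 * (60 * (k + 1)) * (k + 2) + 2 := by gcongr
      _ ≤ 2 * (60 * (n + 1)) * (n + 2) + 2 := by gcongr
      _ ≤ 500 * n ^ 2 := by nlinarith
  have e2 : 2 * (p * l) + 2 * (2 * n ^ 2 + 1) ^ 2 ≤ 20 * n ^ 4 * (p * l) := by
    have h1 : 2 * n ^ 2 + 1 ≤ 3 * n ^ 2 := by nlinarith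
    have h2 : (2 * n ^ 2 + 1) ^ 2 ≤ 9 * n ^ 4 := by
      calc (2 * n ^ 2 + 1) ^ 2 ≤ (3 * n ^ 2) ^ 2 := Nat.pow_le_pow_left h1 2
        _ = 9 * n ^ 4 := by ring
    have h3 : 1 ≤ n ^ 4 := Nat.one_le_pow _ _ (by omega)
    calc 2 * (p * l) + 2 * (2 * n ^ 2 + 1) ^ 2 ≤ 2 * (p * l) + 2 * (9 * n ^ 4) := by omega
      _ = 2 * (1 * (p * l)) + 18 * (n ^ 4 * 1) := by ring
      _ ≤ 2 * (n ^ 4 * (p * l)) + 18 * (n ^ 4 * (p * l)) := by gcongr
      _ = 20 * n ^ 4 * (p * l) := by ring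
  have e3 : 4 * ((k + 1) * (2 * (p * l) + 2 * (2 * n ^ 2 + 1) ^ 2)) + p * l
      ≤ 161 * n ^ 5 * (p * l) := by
    have h3 : 1 ≤ n ^ 5 := Nat.one_le_pow _ _ (by omega)
    have h4 : k + 1 ≤ 2 * n := by omega
    calc 4 * ((k + 1) * (2 * (p * l) + 2 * (2 * n ^ 2 + 1) ^ 2)) + p * l
        ≤ 4 * ((2 * n) * (20 * n ^ 4 * (p * l))) + 1 * (p * l) := by
          rw [one_mul]
          gcongr
      _ ≤ 4 * ((2 * n) * (20 * n ^ 4 * (p * l))) + n ^ 5 * (p * l) := by gcongr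
      _ = 161 * n ^ 5 * (p * l) := by ring
  have e4 : k ^ 2 * ((2 * M * d + 2) * (4 * ((k + 1) * (2 * (p * l) + 2 * (2 * n ^ 2 + 1) ^ 2))
      + p * l)) ≤ 80500 * n ^ 9 * (p * l) := by
    calc k ^ 2 * ((2 * M * d + 2) * (4 * ((k + 1) * (2 * (p * l) + 2 * (2 * n ^ 2 + 1) ^ 2))
      + p * l)) ≤ n ^ 2 * ((500 * n ^ 2) * (161 * n ^ 5 * (p * l))) := by gcongr
      _ = 80500 * n ^ 9 * (p * l) := by ring
  calc ((k ^ 2 * ((2 * M * d + 2) * (4 * ((k + 1) * (2 * (p * l) + 2 * (2 * n ^ 2 + 1) ^ 2))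
      + p * l)) : ℕ) : ℝ) ≤ ((80500 * n ^ 9 * (p * l) : ℕ) : ℝ) := by exact_mod_cast e4
    _ = 80500 * (n : ℝ) ^ 9 * (p * l) := by push_cast; ring
    _ ≤ 80500 * (3 * x) ^ 9 * (p * l) := by gcongr
    _ = (80500 * 3 ^ 9) * (x ^ 9 * (p * l)) := by ring
    _ ≤ 2 ^ 31 * (x ^ 9 * (p * l)) := by
        gcongr
        norm_num
    _ ≤ (x ^ 8) ^ 31 * (x ^ 9 * (p * l)) := by gcongr
    _ = l * p * x ^ 257 := by ring

theorem logcard {n p : ℕ} [hp : Fact p.Prime] (hn : 2 ≤ n) :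
    Real.log 3 ≤ Real.log (Nat.card (SLn n (ZMod p))) ∧
      (n : ℝ) ≤ 3 * Real.log (Nat.card (SLn n (ZMod p))) := by
  set C := Nat.card (SLn n (ZMod p)) with hC
  have hcard : 2 ^ n ≤ C + 1 := pow_le_card hn
  have h3 : (3 : ℝ) ≤ C := by
    have h2 : 2 ^ 2 ≤ 2 ^ n := Nat.pow_le_pow_right (by norm_num) hn
    have : 3 ≤ C := by omega
    exact_mod_cast this
  have h4 : Real.log 3 ≤ Real.log C := Real.log_le_log (by norm_num) h3
  refine ⟨h4, ?_⟩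
  have h1 : (2 : ℝ) ^ (n - 1) ≤ C := by
    have : 2 ^ (n - 1) ≤ C := by
      have h2 : 2 ^ n = 2 * 2 ^ (n - 1) := by
        rw [← pow_succ', Nat.sub_add_cancel (by omega)]
      have h3 : 1 ≤ 2 ^ (n - 1) := Nat.one_le_two_pow
      omega
    exact_mod_cast this
  have h2 : ((n : ℝ) - 1) * Real.log 2 ≤ Real.log C := by
    have h3 := Real.log_le_log (by positivity) h1
    rw [Real.log_pow, Nat.cast_sub (by omega), Nat.cast_one] at h3
    exact h3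
  have h5 := Real.log_two_gt_d9
  have h6 : (1 : ℝ) ≤ Real.log 3 := by
    rw [Real.le_log_iff_exp_le (by norm_num)]
    have := Real.exp_one_lt_d9
    linarith
  have h7 : (2 : ℝ) ≤ n := by exact_mod_cast hn
  nlinarith

end Pool.Agent.Work.MP_936a99_q81
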