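import Pool.Agent.Work.MP_936a99_q81.Defs

/-!
# Block SPAN (helper7)
-/

namespace Pool.Agent.Work.MP_936a99_q81

open Matrix Pool.Agent.Work.MP_936a99_al_h7

theorem SPAN_XX {n k : ℕ} {K : Type*} [Field K] (u : Matrix (Fin n) (Fin k) K)
    (f : Matrix (Fin k) (Fin n) K) (i l : Fin k) :
    (fun h : SLn n K => XX u f h i l) ∈ BS n K := by
  have h1 : (fun h : SLn n K => XX u f h i l) =
      (fun h : SLn n K => (fun a => f i a) ⬝ᵥ
        ((h : Matrix (Fin n) (Fin n) K) *ᵥ (fun a => u a l))) := by
    funext h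
    unfold XX
    rw [Matrix.mul_assoc]
    rfl
  rw [h1]
  exact dot_mem_BS _ _

theorem SPAN_YY {n k : ℕ} {K : Type*} [Field K] (u : Matrix (Fin n) (Fin k) K)
    (f : Matrix (Fin k) (Fin n) K) (i l : Fin k) :
    (fun h : SLn n K => YY u f h i l) ∈ BS n K := by
  have h1 : (fun h : SLn n K => YY u f h i l) =
      (fun h : SLn n K => ((fun a => f i a) ᵥ* ((h⁻¹ : SLn n K) : Matrix (Fin n) (Fin n) K)) ⬝ᵥ
        (fun a => u a l)) := by
    funext h
    unfold YY
    rfl
  rw [h1]
  exact idot_mem_BS _ _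

theorem SPAN_phi {n k : ℕ} {K : Type*} [Field K] (u : Matrix (Fin n) (Fin k) K)
    (f : Matrix (Fin k) (Fin n) K) (φ : Matrix (Fin k) (Fin k) K →ₗ[K] K) :
    (fun h : SLn n K => φ (TT u f h)) ∈ (BS n K) ^ 2 := by
  have h1 : (fun h : SLn n K => φ (TT u f h)) =
      ∑ i, ∑ j, φ (Matrix.single i j 1) •
        ∑ l, (fun h : SLn n K => XX u f h i l) * (fun h : SLn n K => YY u f h l j) := by
    funext h
    conv_lhs => rw [Matrix.matrix_eq_sum_single (TT u f h)]
    simp only [map_sum, Finset.sum_apply, Pi.smul_apply, Pi.mul_apply, smul_eq_mul]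
    refine Finset.sum_congr rfl fun i _ => Finset.sum_congr rfl fun j _ => ?_
    have e1 : Matrix.single i j (TT u f h i j) = (TT u f h i j) • Matrix.single i j (1 : K) := by
      rw [Matrix.smul_single, smul_eq_mul, mul_one]
    rw [e1, map_smul, smul_eq_mul, mul_comm]
    congr 1
  rw [h1]
  refine Submodule.sum_mem _ fun i _ => Submodule.sum_mem _ fun j _ =>
    Submodule.smul_mem _ _ (Submodule.sum_mem _ fun l _ => ?_)
  exact mul_mem_pow (a := 1) (b := 1) (mem_pow_one (SPAN_XX u f i l))
    (mem_pow_one (SPAN_YY u f l j))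

theorem span_thm : Stmt_SPAN := by
  intro n k p _ A u f hA hfu ⟨f', hf'⟩ ⟨u₀, hu₀⟩
  by_contra hne
  obtain ⟨φ, hφ0, hφ⟩ := Submodule.exists_le_ker_of_lt_top _ (lt_top_iff_ne_top.mpr hne)
  -- the functional vanishes at all `T(h)`
  have hall : ∀ h : SLn n (ZMod p), φ (TT u f h) = 0 := by
    intro h
    by_contra hh
    obtain ⟨w, hw, hw'⟩ := open_steer hA (SPAN_phi u f φ) (h := h) hh
    apply hw'
    have := hφ (Submodule.subset_span ⟨w, hw, rfl⟩)
    exact this
  set u' := u₀ - u * (f' * u₀) with hu'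
  have hfu' : f * u' = 1 := by
    rw [hu', Matrix.mul_sub, hu₀, ← Matrix.mul_assoc, hfu, Matrix.zero_mul, sub_zero]
  have hf'u' : f' * u' = 0 := by
    rw [hu', Matrix.mul_sub, ← Matrix.mul_assoc, hf', Matrix.one_mul, sub_self]
  have hsq : ∀ D : Matrix (Fin k) (Fin k) (ZMod p), φ (D * D) = 0 := by
    intro D
    have hdet : (1 + u' * D * f').det = 1 := by
      rw [Matrix.det_one_add_mul_comm, ← Matrix.mul_assoc, hf'u', Matrix.zero_mul, add_zero,
        Matrix.det_one]
    set h : SLn n (ZMod p) := ⟨1 + u' * D * f', hdet⟩ with hh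
    have hc : (h : Matrix (Fin n) (Fin n) (ZMod p)) = 1 + u' * D * f' := rfl
    have hz : (u' * D * f') * (u' * D * f') = 0 := by
      have : (u' * D * f') * (u' * D * f') = u' * D * (f' * u') * (D * f') := by
        simp only [Matrix.mul_assoc]
      rw [this, hf'u', Matrix.mul_zero, Matrix.zero_mul]
    have hi := inv_coe_of_sq_zero hc hz
    have hX : XX u f h = D := by
      unfold XX
      rw [hc, Matrix.mul_add, Matrix.mul_one, Matrix.add_mul, hfu, zero_add]
      have : f * (u' * D * f') * u = (f * u') * D * (f' * u) := by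
        simp only [Matrix.mul_assoc]
      rw [this, hfu', hf', Matrix.one_mul, Matrix.mul_one]
    have hY : YY u f h = -D := by
      unfold YY
      rw [hi, Matrix.mul_sub, Matrix.mul_one, Matrix.sub_mul, hfu, zero_sub]
      have : f * (u' * D * f') * u = (f * u') * D * (f' * u) := by
        simp only [Matrix.mul_assoc]
      rw [this, hfu', hf', Matrix.one_mul, Matrix.mul_one]
    have hT : TT u f h = -(D * D) := by
      unfold TT
      rw [hX, hY, Matrix.mul_neg]
    have := hall h
    rw [hT, map_neg, neg_eq_zero] at this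
    exact this
  have hii : ∀ i : Fin k, φ (Matrix.single i i 1) = 0 := by
    intro i
    have := hsq (Matrix.single i i 1)
    rwa [Matrix.single_mul_single_same, mul_one] at this
  have hij : ∀ i j : Fin k, φ (Matrix.single i j 1) = 0 := by
    intro i j
    by_cases hij : i = j
    · subst hij
      exact hii i
    · have h1 := hsq (Matrix.single i i 1 + Matrix.single i j 1)
      rw [Matrix.mul_add, Matrix.add_mul, Matrix.add_mul, Matrix.single_mul_single_same,
        Matrix.single_mul_single_same, Matrix.single_mul_single_of_ne _ _ _ _ (Ne.symm hij),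
        Matrix.single_mul_single_of_ne _ _ _ _ (Ne.symm hij), mul_one, add_zero, add_zero,
        map_add, hii, zero_add] at h1
      exact h1
  apply hφ0
  refine LinearMap.ext fun M => ?_
  rw [Matrix.matrix_eq_sum_single M]
  rw [map_sum, LinearMap.zero_apply]
  refine Finset.sum_eq_zero fun i _ => ?_
  rw [map_sum]
  refine Finset.sum_eq_zero fun j _ => ?_
  have e1 : Matrix.single i j (M i j) = (M i j) • Matrix.single i j (1 : ZMod p) := by
    rw [Matrix.smul_single, smul_eq_mul, mul_one]
  rw [e1, map_smul, hij, smul_zero]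

end Pool.Agent.Work.MP_936a99_q81
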