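import Pool.Agent.Work.MP_936a99_q81.Defs

/-!
# The action of the words on `u` and `f`
-/

namespace Pool.Agent.Work.MP_936a99_q81

open Matrix Polynomial Pool.Agent.Work.MP_936a99_al_h7

section

variable {n k : ℕ} {K : Type*} [Field K]

/-- the vectors `u P(T) + u₁ Y Q(T)` -/
noncomputable def vec (u : Matrix (Fin n) (Fin k) K) (f : Matrix (Fin k) (Fin n) K) (h : SLn n K)
    (y : K[X] × K[X]) : Matrix (Fin n) (Fin k) K :=
  u * aeval (TT u f h) y.1 + (h : Matrix (Fin n) (Fin n) K) * u * YY u f h * aeval (TT u f h) y.2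

/-- the covectors `P(T) f - Q(T) X f₁` -/
noncomputable def cov (u : Matrix (Fin n) (Fin k) K) (f : Matrix (Fin k) (Fin n) K) (h : SLn n K)
    (y : K[X] × K[X]) : Matrix (Fin k) (Fin n) K :=
  aeval (TT u f h) y.1 * f
    - aeval (TT u f h) y.2 * XX u f h * (f * ((h⁻¹ : SLn n K) : Matrix (Fin n) (Fin n) K))

/-- `γ` moves `u` and `f` to the vector and the covector of the pair `y`, up to a scalar -/
def Rel (u : Matrix (Fin n) (Fin k) K) (f : Matrix (Fin k) (Fin n) K) (h γ : SLn n K)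
    (y : K[X] × K[X]) : Prop :=
  ∃ s : K, s ≠ 0 ∧ (γ : Matrix (Fin n) (Fin n) K) * u = s • vec u f h y ∧
    f * ((γ⁻¹ : SLn n K) : Matrix (Fin n) (Fin n) K) = s⁻¹ • cov u f h y

theorem aeval_step (T : Matrix (Fin k) (Fin k) K) (t : K) (P Q : K[X]) :
    aeval T (P + C t * (X * Q)) = aeval T P + t • (T * aeval T Q) := by
  rw [map_add, map_mul, map_mul, aeval_C, aeval_X, ← Algebra.smul_def]

theorem aeval_step' (T : Matrix (Fin k) (Fin k) K) (t : K) (P Q : K[X]) :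
    aeval T (Q + C t * P) = aeval T Q + t • aeval T P := by
  rw [map_add, map_mul, aeval_C, ← Algebra.smul_def]

theorem aeval_comm' (T : Matrix (Fin k) (Fin k) K) (Q : K[X]) :
    T * aeval T Q = aeval T Q * T := by
  have h1 : aeval T (X * Q) = aeval T (Q * X) := by rw [mul_comm]
  rwa [map_mul, map_mul, aeval_X] at h1

theorem inv_coe {γ : SLn n K} {B : Matrix (Fin n) (Fin n) K}
    (h : (γ : Matrix (Fin n) (Fin n) K) * B = 1) :
    ((γ⁻¹ : SLn n K) : Matrix (Fin n) (Fin n) K) = B := by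
  have h1 : ((γ⁻¹ : SLn n K) : Matrix (Fin n) (Fin n) K) * (γ : Matrix (Fin n) (Fin n) K) = 1 := by
    rw [← Matrix.SpecialLinearGroup.coe_mul, inv_mul_cancel, Matrix.SpecialLinearGroup.coe_one]
  calc ((γ⁻¹ : SLn n K) : Matrix (Fin n) (Fin n) K)
      = ((γ⁻¹ : SLn n K) : Matrix (Fin n) (Fin n) K) * ((γ : Matrix (Fin n) (Fin n) K) * B) := by
        rw [h, Matrix.mul_one]
    _ = B := by rw [← Matrix.mul_assoc, h1, Matrix.one_mul]

theorem inv_shape {γ : SLn n K} {N : Matrix (Fin n) (Fin n) K} {s : K} (hs : s ≠ 0)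
    (hN : N * N = 0) (h : (γ : Matrix (Fin n) (Fin n) K) = s • (1 + N)) :
    ((γ⁻¹ : SLn n K) : Matrix (Fin n) (Fin n) K) = s⁻¹ • (1 - N) := by
  apply inv_coe
  rw [h, Matrix.smul_mul, Matrix.mul_smul, smul_smul, mul_inv_cancel₀ hs, one_smul]
  have : (1 + N) * (1 - N) = 1 - N * N := by noncomm_ring
  rw [this, hN, sub_zero]

theorem pow_shape {N : Matrix (Fin n) (Fin n) K} (hN : N * N = 0) (c : K) (m : ℕ) :
    (c • (1 + N)) ^ m = c ^ m • (1 + (m : K) • N) := by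
  induction m with
  | zero => simp
  | succ m ih =>
    rw [pow_succ, ih, Matrix.smul_mul, Matrix.mul_smul, smul_smul, ← pow_succ]
    congr 1
    rw [Matrix.add_mul, Matrix.one_mul, Matrix.smul_mul, Matrix.mul_add, Matrix.mul_one, hN,
      add_zero, Nat.cast_succ, add_smul, one_smul]
    abel

theorem rel_one (u : Matrix (Fin n) (Fin k) K) (f : Matrix (Fin k) (Fin n) K) (h : SLn n K) :
    Rel u f h 1 (1, 0) := by
  refine ⟨1, one_ne_zero, ?_, ?_⟩
  · simp [vec]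
  · simp [cov]

/-- the step of `w ^ m` -/
theorem rel_step {u : Matrix (Fin n) (Fin k) K} {f : Matrix (Fin k) (Fin n) K} {h γ x : SLn n K}
    (hfu : f * u = 0) {y : K[X] × K[X]} {s t : K} (hs : s ≠ 0)
    (hx : (x : Matrix (Fin n) (Fin n) K) = s • (1 + t • (u * f))) (hγ : Rel u f h γ y) :
    Rel u f h (x * γ) (y.1 + C t * (X * y.2), y.2) := by
  obtain ⟨s', hs', h1, h2⟩ := hγ
  have hfu' : ∀ {m : ℕ} (Z : Matrix (Fin k) (Fin m) K), f * (u * Z) = 0 := by
    intro m Z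
    rw [← Matrix.mul_assoc, hfu, Matrix.zero_mul]
  have hN : (t • (u * f)) * (t • (u * f)) = 0 := by
    rw [Matrix.smul_mul, Matrix.mul_smul, Matrix.mul_assoc, hfu', Matrix.mul_zero, smul_zero,
      smul_zero]
  refine ⟨s * s', mul_ne_zero hs hs', ?_, ?_⟩
  · rw [Matrix.SpecialLinearGroup.coe_mul, Matrix.mul_assoc, h1, hx, Matrix.smul_mul,
      Matrix.mul_smul, smul_smul]
    congr 1
    simp only [vec, aeval_step]
    simp only [Matrix.add_mul, Matrix.mul_add, Matrix.one_mul, Matrix.smul_mul, Matrix.mul_smul,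
      Matrix.mul_assoc, hfu', Matrix.mul_zero, smul_zero]
    rw [TT]
    simp only [XX, Matrix.mul_assoc]
    abel
  · rw [_root_.mul_inv_rev, Matrix.SpecialLinearGroup.coe_mul, ← Matrix.mul_assoc, h2,
      inv_shape hs hN hx, Matrix.smul_mul, Matrix.mul_smul, smul_smul, _root_.mul_inv_rev]
    congr 1
    simp only [cov, aeval_step]
    have e1 : aeval (TT u f h) y.2 * XX u f h * (f * ((h⁻¹ : SLn n K) : Matrix (Fin n) (Fin n) K))
        * (u * f) = TT u f h * aeval (TT u f h) y.2 * f := by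
      rw [aeval_comm', TT, YY]
      simp only [Matrix.mul_assoc]
    have e2 : aeval (TT u f h) y.1 * f * (u * f) = 0 := by
      rw [Matrix.mul_assoc, hfu', Matrix.mul_zero]
    simp only [Matrix.mul_sub, Matrix.mul_one, Matrix.mul_smul, Matrix.sub_mul, e1, e2,
      Matrix.add_mul, Matrix.smul_mul, smul_sub, smul_zero]
    abel

/-- the step of `(h w h⁻¹) ^ m` -/
theorem rel_step1 {u : Matrix (Fin n) (Fin k) K} {f : Matrix (Fin k) (Fin n) K} {h γ x : SLn n K}
    (hfu : f * u = 0) {y : K[X] × K[X]} {s t : K} (hs : s ≠ 0)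
    (hx : (x : Matrix (Fin n) (Fin n) K) = s • (1 + t • (u * f))) (hγ : Rel u f h γ y) :
    Rel u f h (h * x * h⁻¹ * γ) (y.1, y.2 + C t * y.1) := by
  obtain ⟨s', hs', h1, h2⟩ := hγ
  have hfu' : ∀ {m : ℕ} (Z : Matrix (Fin k) (Fin m) K), f * (u * Z) = 0 := by
    intro m Z
    rw [← Matrix.mul_assoc, hfu, Matrix.zero_mul]
  have hN : (t • (u * f)) * (t • (u * f)) = 0 := by
    rw [Matrix.smul_mul, Matrix.mul_smul, Matrix.mul_assoc, hfu', Matrix.mul_zero, smul_zero,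
      smul_zero]
  have hh1 : ∀ {m : ℕ} (Z : Matrix (Fin n) (Fin m) K),
      ((h⁻¹ : SLn n K) : Matrix (Fin n) (Fin n) K) * ((h : Matrix (Fin n) (Fin n) K) * Z) = Z := by
    intro m Z
    rw [← Matrix.mul_assoc, ← Matrix.SpecialLinearGroup.coe_mul, inv_mul_cancel,
      Matrix.SpecialLinearGroup.coe_one, Matrix.one_mul]
  have hh2 : (h : Matrix (Fin n) (Fin n) K) * ((h⁻¹ : SLn n K) : Matrix (Fin n) (Fin n) K) = 1 := by
    rw [← Matrix.SpecialLinearGroup.coe_mul, mul_inv_cancel, Matrix.SpecialLinearGroup.coe_one]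
  have hx' : ((h * x * h⁻¹ : SLn n K) : Matrix (Fin n) (Fin n) K)
      = s • (1 + t • ((h : Matrix (Fin n) (Fin n) K) * u
        * (f * ((h⁻¹ : SLn n K) : Matrix (Fin n) (Fin n) K)))) := by
    rw [Matrix.SpecialLinearGroup.coe_mul, Matrix.SpecialLinearGroup.coe_mul, hx]
    simp only [Matrix.mul_smul, Matrix.smul_mul, Matrix.mul_add, Matrix.add_mul, Matrix.mul_one,
      hh2, Matrix.mul_assoc]
  have hN1 : (t • ((h : Matrix (Fin n) (Fin n) K) * u
        * (f * ((h⁻¹ : SLn n K) : Matrix (Fin n) (Fin n) K))))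
      * (t • ((h : Matrix (Fin n) (Fin n) K) * u
        * (f * ((h⁻¹ : SLn n K) : Matrix (Fin n) (Fin n) K)))) = 0 := by
    rw [Matrix.smul_mul, Matrix.mul_smul]
    simp only [Matrix.mul_assoc, hh1, hfu', Matrix.mul_zero, smul_zero]
  refine ⟨s * s', mul_ne_zero hs hs', ?_, ?_⟩
  · rw [Matrix.SpecialLinearGroup.coe_mul, Matrix.mul_assoc, h1, hx', Matrix.smul_mul,
      Matrix.mul_smul, smul_smul]
    congr 1
    simp only [vec, aeval_step']
    simp only [Matrix.add_mul, Matrix.mul_add, Matrix.one_mul, Matrix.smul_mul,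
      Matrix.mul_smul, Matrix.mul_assoc, hh1, hfu', Matrix.mul_zero, smul_zero, YY]
    abel
  · rw [_root_.mul_inv_rev, Matrix.SpecialLinearGroup.coe_mul, ← Matrix.mul_assoc, h2,
      inv_shape hs hN1 hx', Matrix.smul_mul, Matrix.mul_smul, smul_smul, _root_.mul_inv_rev]
    congr 1
    simp only [cov, aeval_step']
    simp only [Matrix.mul_sub, Matrix.mul_one, Matrix.mul_smul, Matrix.sub_mul,
      Matrix.add_mul, Matrix.smul_mul, smul_sub, smul_zero, Matrix.mul_assoc, hh1, hfu', XX,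
      Matrix.mul_zero]
    abel

end

section words

variable {n k p : ℕ} [hp : Fact p.Prime]

theorem reach_FF {A : Set (SLn n (ZMod p))} {l Lh : ℕ} {w h : SLn n (ZMod p)}
    (hw : Reach A l w) (hh : Reach A Lh h) {u : Matrix (Fin n) (Fin k) (ZMod p)}
    {f : Matrix (Fin k) (Fin n) (ZMod p)} (hfu : f * u = 0) {c : ZMod p} (hc : c ≠ 0)
    (hwc : (w : Matrix (Fin n) (Fin n) (ZMod p)) = c • (1 + u * f)) (r : ℕ)
    (x : (Fin r → (ZMod p)ˣ × (ZMod p)ˣ) × (ZMod p)ˣ) :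
    ∃ γ, Reach A ((r + 1) * (2 * (p * l) + 2 * Lh)) γ ∧ Rel u f h γ (FF r x) := by
  have hN : (u * f) * (u * f) = 0 := by
    rw [Matrix.mul_assoc, ← Matrix.mul_assoc f, hfu, Matrix.zero_mul, Matrix.mul_zero]
  have hpw : ∀ a : ZMod p, ((w ^ a.val : SLn n (ZMod p)) : Matrix (Fin n) (Fin n) (ZMod p))
      = c ^ a.val • (1 + a • (u * f)) := by
    intro a
    rw [Matrix.SpecialLinearGroup.coe_pow, hwc, pow_shape hN, ZMod.natCast_zmod_val]
  have hr1 : ∀ a : ZMod p, Reach A (p * l) (w ^ a.val) := fun a =>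
    (hw.pow a.val).mono (Nat.mul_le_mul_right _ (ZMod.val_lt a).le)
  have hr2 : ∀ a : ZMod p, Reach A (p * l + 2 * Lh) (h * w ^ a.val * h⁻¹) := fun a =>
    ((hh.mul (hr1 a)).mul hh.inv).mono (by omega)
  have hpq : ∀ (r : ℕ) (x : Fin r → (ZMod p)ˣ × (ZMod p)ˣ),
      ∃ γ, Reach A (r * (2 * (p * l) + 2 * Lh)) γ ∧ Rel u f h γ (pq r x) := by
    intro r
    induction r with
    | zero => exact fun x => ⟨1, by simpa using reach_one A, rel_one u f h⟩
    | succ r ih =>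
      intro x
      obtain ⟨γ, h1, h2⟩ := ih (Fin.tail x)
      have h3 := rel_step1 hfu (pow_ne_zero _ hc) (hpw ((x 0).1 : ZMod p)) h2
      have h4 := rel_step hfu (pow_ne_zero _ hc) (hpw ((x 0).2 : ZMod p)) h3
      refine ⟨_, ?_, h4⟩
      refine ((hr1 _).mul ((hr2 _).mul h1)).mono ?_
      rw [Nat.succ_mul r]
      omega
  obtain ⟨γ, h1, h2⟩ := hpq r x.1
  have h3 := rel_step1 hfu (pow_ne_zero _ hc) (hpw (x.2 : ZMod p)) h2
  refine ⟨_, ?_, h3⟩
  refine ((hr2 _).mul h1).mono ?_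
  rw [Nat.succ_mul r]
  omega

end words

end Pool.Agent.Work.MP_936a99_q81
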