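import Pool.Agent.Work.MP_936a99_q81.Rone
import Pool.Agent.Work.MP_936a99_pt.All

/-!
# Assembly
-/

namespace Pool.Agent.Work.MP_936a99_q81

open Matrix Pool.Agent.Work.MP_936a99_al_h7

theorem large_p (hSPAN : Stmt_SPAN) (hFACT : Stmt_FACT) (hIRR : Stmt_IRR) (hNUM : Stmt_NUM) :
    ∃ p0 : ℕ, ∀ (n p l : ℕ) [Fact p.Prime], p0 ≤ p → ∀ A : Set (SLn n (ZMod p)),
    Subgroup.closure A = ⊤ → ∀ w : SLn n (ZMod p), Reach A l w → ∀ c : ZMod p,
    ((w : Matrix (Fin n) (Fin n) (ZMod p)) - c • 1) ^ 2 = 0 →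
    (((w : Matrix (Fin n) (Fin n) (ZMod p)) - c • 1).rank : ℝ) ≤ p * Real.log p / 8 →
    (∀ d : ZMod p, (w : Matrix (Fin n) (Fin n) (ZMod p)) ≠ d • 1) →
    ∃ (L : ℕ) (γ : SLn n (ZMod p)) (s : ZMod p), Reach A L γ ∧
      ((γ : Matrix (Fin n) (Fin n) (ZMod p)) - s • 1).rank ≤ 1 ∧
      (∀ d : ZMod p, (γ : Matrix (Fin n) (Fin n) (ZMod p)) ≠ d • 1) ∧
      (L : ℝ) ≤ l * p * Real.log (Nat.card (SLn n (ZMod p))) ^ 257 := by
  obtain ⟨p0, hp0⟩ := hNUM
  refine ⟨p0, fun n p l hp hpp A hA w hw c hsq hrk hns => ?_⟩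
  obtain ⟨k, hk, hk1, hkn, hc, u, f, hfu, ⟨f', hf'⟩, ⟨u', hu'⟩, hwc⟩ := hFACT n p w c hsq hns
  rw [← hk] at hrk
  obtain ⟨M, d, hd2, hdp, hMp, hM, hcount, hMk, hdk⟩ := hp0 p hpp k hrk
  obtain ⟨g, hg, hgi, hgd⟩ := hIRR p d (by omega)
  have hspan := hSPAN n k p A u f hA hfu ⟨f', hf'⟩ ⟨u', hu'⟩
  have hall := av_all (A := A) hfu (E := (2 * M * d + 2) *
    (4 * ((k + 1) * (2 * (p * l) + 2 * (2 * n ^ 2 + 1) ^ 2)) + p * l)) hspan (by
      rintro T ⟨h, hh, rfl⟩ m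
      exact av_T hw hh hfu hc hwc hd2 hdp hMp hM hcount hg hgi hgd m)
  obtain ⟨γ, s, h1, h2, h3⟩ := exists_rank_one hfu hf' hu' hk1 hall
  have hn2 : 2 ≤ n := two_le_of_nonscalar hns
  have hl : 1 ≤ l := by
    rw [Nat.one_le_iff_ne_zero]
    rintro rfl
    obtain ⟨v, hv1, -, hv3⟩ := hw
    have h4 : v = [] := List.length_eq_zero_iff.1 (Nat.le_zero.1 hv1)
    apply hns 1
    rw [← hv3, h4]
    simp
  obtain ⟨hx1, hx2⟩ := logcard (n := n) (p := p) hn2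
  exact ⟨_, γ, s, h1, h2, h3, fin_num hn2 hkn hp.out.one_le hl hMk hdk hx2 hx1⟩

theorem main_of (hSPAN : Stmt_SPAN) (hFACT : Stmt_FACT) (hIRR : Stmt_IRR) (hNUM : Stmt_NUM)
    (B : ℕ) : ∃ C : ℕ, ∀ (n p l : ℕ) [Fact p.Prime] (A : Set (SLn n (ZMod p))),
    Subgroup.closure A = ⊤ → ∀ w : SLn n (ZMod p), Reach A l w → ∀ c : ZMod p,
    ((w : Matrix (Fin n) (Fin n) (ZMod p)) - c • 1) ^ 2 = 0 →
    (((w : Matrix (Fin n) (Fin n) (ZMod p)) - c • 1).rank : ℝ) ≤ B * p + p * Real.log p / 16 →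
    (∀ d : ZMod p, (w : Matrix (Fin n) (Fin n) (ZMod p)) ≠ d • 1) →
    ∀ g : SLn n (ZMod p), ∃ L : ℕ, Reach A L g ∧
      (L : ℝ) ≤ l * p * Real.log (Nat.card (SLn n (ZMod p))) ^ C := by
  obtain ⟨p0, hp0⟩ := large_p hSPAN hFACT hIRR hNUM
  set P : ℕ := max p0 ⌈Real.exp (16 * B)⌉₊ with hP
  obtain ⟨C0, hC0⟩ := Pool.Agent.Work.MP_936a99_pt.final_of
    Pool.Agent.Work.MP_936a99_pt.fd_thm (B * P + P * P)
  obtain ⟨C1, hC1⟩ := Pool.Agent.Work.MP_936a99_pt.final_of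
    Pool.Agent.Work.MP_936a99_pt.fd_thm 1
  refine ⟨max C0 (C1 + 257), fun n p l hp A hA w hw c hsq hrk hns g => ?_⟩
  have hn2 : 2 ≤ n := two_le_of_nonscalar hns
  obtain ⟨hx1, hx2⟩ := logcard (n := n) (p := p) hn2
  set x : ℝ := Real.log (Nat.card (SLn n (ZMod p))) with hx
  have hx3 : 1 ≤ x := by
    refine le_trans ?_ hx1
    rw [Real.le_log_iff_exp_le (by norm_num)]
    have := Real.exp_one_lt_d9
    linarith
  have hp1 : (1 : ℝ) ≤ p := by exact_mod_cast hp.out.one_le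
  by_cases hpP : P ≤ p
  · have hB : (B : ℝ) ≤ Real.log p / 16 := by
      have h1 : Real.exp (16 * B) ≤ p := by
        refine (Nat.le_ceil _).trans ?_
        exact_mod_cast (le_max_right p0 _).trans hpP
      have h2 := (Real.le_log_iff_exp_le (by linarith)).2 h1
      linarith
    have hrk' : (((w : Matrix (Fin n) (Fin n) (ZMod p)) - c • 1).rank : ℝ)
        ≤ p * Real.log p / 8 := by
      refine hrk.trans ?_
      nlinarith
    obtain ⟨L, γ, s, h1, h2, h3, h4⟩ := hp0 n p l ((le_max_left _ _).trans hpP) A hA w hw c hsq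
      hrk' hns
    obtain ⟨L', h5, h6⟩ := hC1 n p L A hA γ h1 s h2 h3 g
    refine ⟨L', h5, h6.trans ?_⟩
    rw [← hx] at h4 ⊢
    calc (L : ℝ) * x ^ C1 ≤ (l * p * x ^ 257) * x ^ C1 := by gcongr
      _ = l * p * x ^ (C1 + 257) := by ring
      _ ≤ l * p * x ^ (max C0 (C1 + 257)) := by
        gcongr
        exact le_max_right _ _
  · push Not at hpP
    have hpP' : (p : ℝ) ≤ P := by exact_mod_cast hpP.le
    have hr : ((w : Matrix (Fin n) (Fin n) (ZMod p)) - c • 1).rank ≤ B * P + P * P := by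
      have h1 : Real.log p ≤ p := (Real.log_le_self (by linarith))
      have h2 : 0 ≤ Real.log p := Real.log_nonneg hp1
      have h3 : (((w : Matrix (Fin n) (Fin n) (ZMod p)) - c • 1).rank : ℝ) ≤ B * P + P * P := by
        refine hrk.trans ?_
        have h4 : p * Real.log p / 16 ≤ (P : ℝ) * P := by
          have h5 : p * Real.log p ≤ (P : ℝ) * P := by
            gcongr
            linarith
          have h6 : 0 ≤ p * Real.log p := by positivity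
          linarith
        have h5 : (B : ℝ) * p ≤ B * P := by gcongr
        linarith
      exact_mod_cast h3
    obtain ⟨L', h5, h6⟩ := hC0 n p l A hA w hw c hr hns g
    refine ⟨L', h5, h6.trans ?_⟩
    rw [← hx]
    calc (l : ℝ) * x ^ C0 ≤ l * p * x ^ C0 := by
          gcongr
          exact le_mul_of_one_le_right (by positivity) hp1
      _ ≤ l * p * x ^ (max C0 (C1 + 257)) := by
        gcongr
        exact le_max_left _ _

end Pool.Agent.Work.MP_936a99_q81
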