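import Pool.Agent.Work.MP_936a99_q81.Act

/-!
# Available matrices
-/

namespace Pool.Agent.Work.MP_936a99_q81

open Matrix Polynomial Pool.Agent.Work.MP_936a99_al_h7

section

variable {n k : ℕ} {K : Type*} [Field K] {A : Set (SLn n K)} {u : Matrix (Fin n) (Fin k) K}
  {f : Matrix (Fin k) (Fin n) K}

theorem Av.mono {L L' : ℕ} {M : Matrix (Fin k) (Fin k) K} (h : Av A u f L M) (hL : L ≤ L') :
    Av A u f L' M := by
  obtain ⟨γ, s, h1, h2, h3⟩ := h
  exact ⟨γ, s, h1, h2.mono hL, h3⟩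

theorem av_zero : Av A u f 0 0 :=
  ⟨1, 1, one_ne_zero, reach_one A, by simp⟩

theorem av_add (hfu : f * u = 0) {L L' : ℕ} {M M' : Matrix (Fin k) (Fin k) K}
    (h : Av A u f L M) (h' : Av A u f L' M') : Av A u f (L + L') (M + M') := by
  obtain ⟨γ, s, h1, h2, h3⟩ := h
  obtain ⟨γ', s', h1', h2', h3'⟩ := h'
  refine ⟨γ * γ', s * s', mul_ne_zero h1 h1', h2.mul h2', ?_⟩
  have hfu' : ∀ {m : ℕ} (Z : Matrix (Fin k) (Fin m) K), f * (u * Z) = 0 := by
    intro m Z
    rw [← Matrix.mul_assoc, hfu, Matrix.zero_mul]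
  rw [Matrix.SpecialLinearGroup.coe_mul, h3, h3', Matrix.smul_mul, Matrix.mul_smul, smul_smul]
  congr 1
  simp only [Matrix.mul_add, Matrix.add_mul, Matrix.mul_one, Matrix.one_mul, Matrix.mul_assoc,
    hfu', Matrix.mul_zero, add_zero]
  abel

theorem av_sum (hfu : f * u = 0) {ι : Type*} (t : Finset ι) {L : ℕ}
    (M : ι → Matrix (Fin k) (Fin k) K) (h : ∀ i ∈ t, Av A u f L (M i)) :
    Av A u f (t.card * L) (∑ i ∈ t, M i) := by
  classical
  induction t using Finset.induction_on with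
  | empty => simpa using (av_zero (A := A) (u := u) (f := f))
  | insert a t ha ih =>
    rw [Finset.sum_insert ha, Finset.card_insert_of_notMem ha, Nat.succ_mul, Nat.add_comm]
    exact av_add hfu (h a (Finset.mem_insert_self _ _))
      (ih fun i hi => h i (Finset.mem_insert_of_mem hi))

/-- every matrix is available if a spanning set is -/
theorem av_all (hfu : f * u = 0) {E : ℕ} {S : Set (Matrix (Fin k) (Fin k) K)}
    (hS : Submodule.span K S = ⊤) (hE : ∀ T ∈ S, ∀ m : K, Av A u f E (m • T))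
    (D : Matrix (Fin k) (Fin k) K) : Av A u f (k ^ 2 * E) D := by
  classical
  obtain ⟨b, hb1, hb2, hb3⟩ := exists_linearIndependent K S
  have hfin : b.Finite := hb3.setFinite
  have : Fintype b := hfin.fintype
  have hcard : hfin.toFinset.card ≤ k ^ 2 := by
    have h1 := hb3.fintype_card_le_finrank
    rw [Module.finrank_matrix, Module.finrank_self, mul_one, Fintype.card_fin, ← pow_two] at h1
    rwa [← Set.ncard_eq_toFinset_card b hfin, ← Nat.card_coe_set_eq, Nat.card_eq_fintype_card]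
  have hD : D ∈ Submodule.span K ((hfin.toFinset : Finset _) : Set (Matrix (Fin k) (Fin k) K)) := by
    rw [Set.Finite.coe_toFinset, hb2, hS]
    trivial
  rw [Submodule.mem_span_finset] at hD
  obtain ⟨c, -, hc⟩ := hD
  rw [← hc]
  refine (av_sum hfu hfin.toFinset (fun T => c T • T) fun T hT => ?_).mono
    (Nat.mul_le_mul_right _ hcard)
  exact hE T (hb1 (hfin.mem_toFinset.1 hT)) (c T)

end

section

variable {n k p : ℕ} [hp : Fact p.Prime]

theorem av_real {A : Set (SLn n (ZMod p))} {l Lh : ℕ} {w h : SLn n (ZMod p)}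
    (hw : Reach A l w) (hh : Reach A Lh h) {u : Matrix (Fin n) (Fin k) (ZMod p)}
    {f : Matrix (Fin k) (Fin n) (ZMod p)} (hfu : f * u = 0) {c : ZMod p} (hc : c ≠ 0)
    (hwc : (w : Matrix (Fin n) (Fin n) (ZMod p)) = c • (1 + u * f)) {lm : (ZMod p)[X]} {j : ℕ}
    (hR : Real k (TT u f h).charpoly lm j) (m : ZMod p) :
    Av A u f (4 * ((k + 1) * (2 * (p * l) + 2 * Lh)) + p * l)
      (m • (aeval (TT u f h) lm) ^ (2 * j)) := by
  obtain ⟨x, x', hx1, hx2⟩ := hR
  obtain ⟨γ1, hr1, s1, hs1, a1, b1⟩ := reach_FF hw hh hfu hc hwc k x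
  obtain ⟨γ2, hr2, s2, hs2, a2, b2⟩ := reach_FF hw hh hfu hc hwc k x'
  set T := TT u f h with hT
  set Lam := (aeval T lm) ^ j with hLam
  have hchi : aeval T T.charpoly = 0 := Matrix.aeval_self_charpoly T
  have e : ∀ y y' : (ZMod p)[X], T.charpoly ∣ y - lm ^ j * y' → aeval T y = Lam * aeval T y' := by
    intro y y' hd
    obtain ⟨z, hz⟩ := hd
    have h1 := congrArg (aeval T) hz
    rw [map_mul, hchi, zero_mul, map_sub, map_mul, map_pow] at h1
    exact sub_eq_zero.1 h1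
  have e' : ∀ y' : (ZMod p)[X], Lam * aeval T y' = aeval T y' * Lam := by
    intro y'
    rw [hLam, ← map_pow, ← map_mul, ← map_mul, mul_comm]
  have ev : vec u f h (FF k x) = vec u f h (FF k x') * Lam := by
    simp only [vec]
    rw [← hT, e _ _ hx1, e _ _ hx2, e', e', Matrix.add_mul]
    simp only [Matrix.mul_assoc]
  have ec : cov u f h (FF k x) = Lam * cov u f h (FF k x') := by
    simp only [cov]
    rw [← hT, e _ _ hx1, e _ _ hx2, Matrix.mul_sub]
    simp only [Matrix.mul_assoc]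
  have hN : (u * f) * (u * f) = 0 := by
    rw [Matrix.mul_assoc, ← Matrix.mul_assoc f, hfu, Matrix.zero_mul, Matrix.mul_zero]
  have hpw : ((w ^ m.val : SLn n (ZMod p)) : Matrix (Fin n) (Fin n) (ZMod p))
      = c ^ m.val • (1 + m • (u * f)) := by
    rw [Matrix.SpecialLinearGroup.coe_pow, hwc, pow_shape hN, ZMod.natCast_zmod_val]
  have hinv : ∀ (γ : SLn n (ZMod p)) {r : ℕ} (Z : Matrix (Fin n) (Fin r) (ZMod p)),
      ((γ⁻¹ : SLn n (ZMod p)) : Matrix (Fin n) (Fin n) (ZMod p))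
        * ((γ : Matrix (Fin n) (Fin n) (ZMod p)) * Z) = Z := by
    intro γ r Z
    rw [← Matrix.mul_assoc, ← Matrix.SpecialLinearGroup.coe_mul, inv_mul_cancel,
      Matrix.SpecialLinearGroup.coe_one, Matrix.one_mul]
  have hinv' : ∀ (γ : SLn n (ZMod p)) {r : ℕ} (Z : Matrix (Fin r) (Fin n) (ZMod p)),
      (Z * ((γ⁻¹ : SLn n (ZMod p)) : Matrix (Fin n) (Fin n) (ZMod p)))
        * (γ : Matrix (Fin n) (Fin n) (ZMod p)) = Z := by
    intro γ r Z
    rw [Matrix.mul_assoc, ← Matrix.SpecialLinearGroup.coe_mul, inv_mul_cancel,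
      Matrix.SpecialLinearGroup.coe_one, Matrix.mul_one]
  set γ := γ2⁻¹ * γ1 with hγ
  have k1 : (γ : Matrix (Fin n) (Fin n) (ZMod p)) * u = (s1 * s2⁻¹) • (u * Lam) := by
    have h1 : vec u f h (FF k x') = s2⁻¹ • ((γ2 : Matrix (Fin n) (Fin n) (ZMod p)) * u) := by
      rw [a2, smul_smul, inv_mul_cancel₀ hs2, one_smul]
    rw [hγ, Matrix.SpecialLinearGroup.coe_mul, Matrix.mul_assoc, a1, ev, h1, Matrix.smul_mul,
      smul_smul, Matrix.mul_smul, Matrix.mul_assoc, hinv]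
  have k2 : f * ((γ⁻¹ : SLn n (ZMod p)) : Matrix (Fin n) (Fin n) (ZMod p))
      = (s1 * s2⁻¹)⁻¹ • (Lam * f) := by
    have h1 : cov u f h (FF k x')
        = s2 • (f * ((γ2⁻¹ : SLn n (ZMod p)) : Matrix (Fin n) (Fin n) (ZMod p))) := by
      rw [b2, smul_smul, mul_inv_cancel₀ hs2, one_smul]
    rw [hγ, _root_.mul_inv_rev, inv_inv, Matrix.SpecialLinearGroup.coe_mul, ← Matrix.mul_assoc, b1,
      ec, h1, Matrix.mul_smul, smul_smul, Matrix.smul_mul, ← Matrix.mul_assoc, hinv',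
      _root_.mul_inv_rev, inv_inv, mul_comm s2]
  refine ⟨γ * w ^ m.val * γ⁻¹, c ^ m.val, pow_ne_zero _ hc, ?_, ?_⟩
  · have r1 : Reach A (2 * ((k + 1) * (2 * (p * l) + 2 * Lh))) γ :=
      (hr2.inv.mul hr1).mono (by omega)
    have r2 : Reach A (p * l) (w ^ m.val) :=
      (hw.pow m.val).mono (Nat.mul_le_mul_right _ (ZMod.val_lt m).le)
    exact ((r1.mul r2).mul r1.inv).mono (by omega)
  · have hγγ : (γ : Matrix (Fin n) (Fin n) (ZMod p))
        * ((γ⁻¹ : SLn n (ZMod p)) : Matrix (Fin n) (Fin n) (ZMod p)) = 1 := by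
      rw [← Matrix.SpecialLinearGroup.coe_mul, mul_inv_cancel, Matrix.SpecialLinearGroup.coe_one]
    rw [Matrix.SpecialLinearGroup.coe_mul, Matrix.SpecialLinearGroup.coe_mul, hpw,
      Matrix.mul_smul, Matrix.smul_mul]
    congr 1
    rw [Matrix.mul_add, Matrix.add_mul, Matrix.mul_one, hγγ, Matrix.mul_smul, Matrix.smul_mul]
    have h2 : (γ : Matrix (Fin n) (Fin n) (ZMod p)) * (u * f)
        * ((γ⁻¹ : SLn n (ZMod p)) : Matrix (Fin n) (Fin n) (ZMod p))
        = ((γ : Matrix (Fin n) (Fin n) (ZMod p)) * u)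
          * (f * ((γ⁻¹ : SLn n (ZMod p)) : Matrix (Fin n) (Fin n) (ZMod p))) := by
      simp only [Matrix.mul_assoc]
    have hs : (s1 * s2⁻¹) * (s1 * s2⁻¹)⁻¹ = 1 :=
      mul_inv_cancel₀ (mul_ne_zero hs1 (inv_ne_zero hs2))
    have h7 : ((s1 * s2⁻¹) • (u * Lam)) * ((s1 * s2⁻¹)⁻¹ • (Lam * f)) = u * Lam * (Lam * f) := by
      rw [Matrix.smul_mul, Matrix.mul_smul, smul_smul, hs, one_smul]
    rw [h2, k1, k2, h7, Matrix.mul_smul, Matrix.smul_mul, two_mul, pow_add, ← hLam]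
    simp only [Matrix.mul_assoc]

theorem av_one {A : Set (SLn n (ZMod p))} {l : ℕ} {w : SLn n (ZMod p)}
    (hw : Reach A l w) {u : Matrix (Fin n) (Fin k) (ZMod p)}
    {f : Matrix (Fin k) (Fin n) (ZMod p)} (hfu : f * u = 0) {c : ZMod p} (hc : c ≠ 0)
    (hwc : (w : Matrix (Fin n) (Fin n) (ZMod p)) = c • (1 + u * f)) (m : ZMod p) :
    Av A u f (p * l) (m • 1) := by
  have hN : (u * f) * (u * f) = 0 := by
    rw [Matrix.mul_assoc, ← Matrix.mul_assoc f, hfu, Matrix.zero_mul, Matrix.mul_zero]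
  refine ⟨w ^ m.val, c ^ m.val, pow_ne_zero _ hc,
    (hw.pow m.val).mono (Nat.mul_le_mul_right _ (ZMod.val_lt m).le), ?_⟩
  rw [Matrix.SpecialLinearGroup.coe_pow, hwc, pow_shape hN, ZMod.natCast_zmod_val,
    Matrix.mul_smul, Matrix.smul_mul, Matrix.mul_one]

theorem av_T {A : Set (SLn n (ZMod p))} {l Lh : ℕ} {w h : SLn n (ZMod p)}
    (hw : Reach A l w) (hh : Reach A Lh h) {u : Matrix (Fin n) (Fin k) (ZMod p)}
    {f : Matrix (Fin k) (Fin n) (ZMod p)} (hfu : f * u = 0) {c : ZMod p} (hc : c ≠ 0)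
    (hwc : (w : Matrix (Fin n) (Fin n) (ZMod p)) = c • (1 + u * f)) {M d : ℕ} (hd2 : 2 ≤ d)
    (hdp : d < p) (hMp : 2 * M < p) (hM : p ^ (2 * k + 1) < M * (p - 1) ^ (2 * k + 1))
    (hcount : (M - 1) * (2 * (M - 1) * d) + k / d < p) {g : (ZMod p)[X]} (hg : g.Monic)
    (hgi : Irreducible g) (hgd : g.natDegree = d) (m : ZMod p) :
    Av A u f ((2 * M * d + 2) * (4 * ((k + 1) * (2 * (p * l) + 2 * Lh)) + p * l))
      (m • TT u f h) := by
  classical
  have hcardp : Fintype.card (ZMod p) = p := ZMod.card p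
  have hdK : ((d : ℕ) : ZMod p) ≠ 0 := by
    rw [Ne, ZMod.natCast_eq_zero_iff]
    intro h1
    exact absurd (Nat.le_of_dvd (by omega) h1) (by omega)
  obtain ⟨j, hj1, hjM, S, hScard, hS⟩ := pick (χ := (TT u f h).charpoly) (g := g) (k := k) (d := d)
    (M := M) (Matrix.charpoly_monic _) (by rw [Matrix.charpoly_natDegree_eq_dim, Fintype.card_fin])
    hg hgi hgd hd2 hdK (by rw [hcardp]; exact hM) (by rw [hcardp]; exact hcount)
  have hJK : ((2 * j : ℕ) : ZMod p) ≠ 0 := by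
    rw [Ne, ZMod.natCast_eq_zero_iff]
    intro h1
    exact absurd (Nat.le_of_dvd (by omega) h1) (by omega)
  have hint := interp (TT u f h) hg hgd (by omega) (J := 2 * j) (by omega) hJK hdK S
    (le_of_eq hScard.symm)
  rw [Submodule.mem_span_insert] at hint
  obtain ⟨a, z, hz, hTz⟩ := hint
  rw [Submodule.mem_span_image_finset_iff_exists_fun] at hz
  obtain ⟨b, hb⟩ := hz
  set L0 := 4 * ((k + 1) * (2 * (p * l) + 2 * Lh)) + p * l with hL0
  have h1 : Av A u f L0 ((m * a) • 1) := (av_one hw hfu hc hwc (m * a)).mono (by omega)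
  have h2 : ∀ s ∈ (Finset.univ : Finset S),
      Av A u f L0 ((m * b s) • (aeval (TT u f h) (taylor (s : ZMod p) g)) ^ (2 * j)) := by
    intro s _
    obtain ⟨hs1, hs2⟩ := hS s s.2
    have h3 : aeval (TT u f h) (taylor (s : ZMod p) g)
        = g.eval (s : ZMod p) • aeval (TT u f h) (lam g s) := by
      rw [lam, map_mul, aeval_C, ← Algebra.smul_def, smul_smul, mul_inv_cancel₀ hs1, one_smul]
    rw [h3, _root_.smul_pow, smul_smul]
    exact av_real hw hh hfu hc hwc hs2 _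
  have h4 := av_add hfu h1 (av_sum hfu Finset.univ _ h2)
  rw [Finset.card_univ, Fintype.card_coe] at h4
  have h5 : m • TT u f h = (m * a) • 1
      + ∑ s : S, (m * b s) • (aeval (TT u f h) (taylor (s : ZMod p) g)) ^ (2 * j) := by
    conv_lhs => rw [hTz, ← hb, smul_add, smul_smul, Finset.smul_sum]
    simp only [smul_smul]
  rw [h5]
  refine h4.mono ?_
  have h6 : S.card + 1 ≤ 2 * M * d + 2 := by
    rw [hScard]
    have : 2 * j * d ≤ 2 * M * d := Nat.mul_le_mul_right _ (by omega)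
    omega
  calc L0 + S.card * L0 = (S.card + 1) * L0 := by ring
    _ ≤ _ := Nat.mul_le_mul_right _ h6

end

end Pool.Agent.Work.MP_936a99_q81
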