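import Mathlib

/-!
# Counting words in `F_q[t]^2`

Rounds `(P, Q) ↦ (P + a t (Q + b P), Q + b P)` with nonzero `a, b` starting at `(1, 0)` give
different pairs of polynomials; there are so many that for every `λ` coprime to `χ`, `λ(0) = 1`, the
set of pairs reached meets its image under multiplication by some small power of `λ` modulo
`t χ(t)`.
-/

namespace Pool.Agent.Work.MP_936a99_q81

open Polynomial

variable {K : Type*} [Field K]

/-- one round -/
noncomputable def stp (b a : K) (y : K[X] × K[X]) : K[X] × K[X] :=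
  (y.1 + C a * (X * (y.2 + C b * y.1)), y.2 + C b * y.1)

/-- `k` rounds, starting at `(1, 0)` -/
noncomputable def pq : (k : ℕ) → (Fin k → Kˣ × Kˣ) → K[X] × K[X]
  | 0, _ => (1, 0)
  | k + 1, w => stp ((w 0).1 : K) ((w 0).2 : K) (pq k (Fin.tail w))

/-- the last half round -/
noncomputable def fn (b : K) (y : K[X] × K[X]) : K[X] × K[X] := (y.1, y.2 + C b * y.1)

theorem pq_coeff (k : ℕ) (w : Fin k → Kˣ × Kˣ) :
    (pq k w).1.coeff k ≠ 0 ∧ (∀ j, k < j → (pq k w).1.coeff j = 0) ∧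
      (∀ j, k ≤ j → (pq k w).2.coeff j = 0) ∧ (pq k w).1.coeff 0 = 1 := by
  induction k with
  | zero =>
    refine ⟨by simp [pq], fun j hj => ?_, fun j _ => by simp [pq], by simp [pq]⟩
    simp only [pq]
    rw [coeff_one]
    simp; omega
  | succ k ih =>
    obtain ⟨h1, h2, h3, h4⟩ := ih (Fin.tail w)
    have e1 : ∀ j, (pq (k + 1) w).2.coeff j
        = (pq k (Fin.tail w)).2.coeff j + ((w 0).1 : K) * (pq k (Fin.tail w)).1.coeff j := by
      intro j
      simp [pq, stp]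
    have e2 : ∀ j, (pq (k + 1) w).1.coeff (j + 1)
        = (pq k (Fin.tail w)).1.coeff (j + 1) + ((w 0).2 : K) * (pq (k + 1) w).2.coeff j := by
      intro j
      simp [pq, stp, coeff_X_mul]
    have e3 : (pq (k + 1) w).1.coeff 0 = (pq k (Fin.tail w)).1.coeff 0 := by
      simp [pq, stp]
    refine ⟨?_, ?_, ?_, by rw [e3, h4]⟩
    · rw [e2, h2 (k + 1) (by omega), e1, h3 k le_rfl]
      simpa using h1
    · intro j hj
      obtain ⟨i, rfl⟩ : ∃ i, j = i + 1 := ⟨j - 1, by omega⟩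
      rw [e2, e1, h2 _ (by omega), h2 _ (by omega), h3 _ (by omega)]
      simp
    · intro j hj
      rw [e1, h2 _ (by omega), h3 _ (by omega)]
      simp

theorem pq_top (k : ℕ) (w : Fin (k + 1) → Kˣ × Kˣ) : (pq (k + 1) w).2.coeff k ≠ 0 := by
  obtain ⟨h1, h2, h3, h4⟩ := pq_coeff k (Fin.tail w)
  have e1 : (pq (k + 1) w).2.coeff k
      = (pq k (Fin.tail w)).2.coeff k + ((w 0).1 : K) * (pq k (Fin.tail w)).1.coeff k := by
    simp [pq, stp]
  rw [e1, h3 k le_rfl]
  simpa using h1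

theorem pq_inj (k : ℕ) : Function.Injective (pq (K := K) k) := by
  induction k with
  | zero => intro w w' _; exact Subsingleton.elim _ _
  | succ k ih =>
    intro w w' h
    obtain ⟨h1, h2, h3, h4⟩ := pq_coeff k (Fin.tail w)
    obtain ⟨h1', h2', h3', h4'⟩ := pq_coeff k (Fin.tail w')
    have hQ : (pq (k + 1) w).2 = (pq (k + 1) w').2 := congrArg Prod.snd h
    have hP : (pq (k + 1) w).1 = (pq (k + 1) w').1 := congrArg Prod.fst h
    have e1 : ∀ w : Fin (k + 1) → Kˣ × Kˣ, (pq (k + 1) w).1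
        = (pq k (Fin.tail w)).1 + C ((w 0).2 : K) * (X * (pq (k + 1) w).2) := fun w => rfl
    have e2 : ∀ w : Fin (k + 1) → Kˣ × Kˣ, (pq (k + 1) w).2
        = (pq k (Fin.tail w)).2 + C ((w 0).1 : K) * (pq k (Fin.tail w)).1 := fun w => rfl
    have ha : ((w 0).2 : K) = ((w' 0).2 : K) := by
      have h5 := congrArg (fun P => P.coeff (k + 1)) hP
      rw [e1 w, e1 w', coeff_add, coeff_add, coeff_C_mul, coeff_C_mul, coeff_X_mul, coeff_X_mul,
        h2 _ (by omega), h2' _ (by omega), ← hQ] at h5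
      simpa [pq_top k w] using h5
    have hP' : (pq k (Fin.tail w)).1 = (pq k (Fin.tail w')).1 := by
      have h5 := hP
      rw [e1 w, e1 w', ha, hQ] at h5
      exact add_right_cancel h5
    have hb : ((w 0).1 : K) = ((w' 0).1 : K) := by
      have h5 := congrArg (fun P => P.coeff k) hQ
      rw [e2 w, e2 w', coeff_add, coeff_add, coeff_C_mul, coeff_C_mul, h3 _ le_rfl, h3' _ le_rfl,
        ← hP'] at h5
      simpa [h1] using h5
    have hQ' : (pq k (Fin.tail w)).2 = (pq k (Fin.tail w')).2 := by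
      have h5 := hQ
      rw [e2 w, e2 w', hb, hP'] at h5
      exact add_right_cancel h5
    have ht : Fin.tail w = Fin.tail w' := ih (Prod.ext hP' hQ')
    have h0 : w 0 = w' 0 := Prod.ext (Units.ext hb) (Units.ext ha)
    rw [← Fin.cons_self_tail w, ← Fin.cons_self_tail w', h0, ht]

/-- all pairs reached -/
noncomputable def FF (k : ℕ) (w : (Fin k → Kˣ × Kˣ) × Kˣ) : K[X] × K[X] :=
  fn (w.2 : K) (pq k w.1)

theorem FF_inj (k : ℕ) : Function.Injective (FF (K := K) k) := by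
  rintro ⟨w, b⟩ ⟨w', b'⟩ h
  obtain ⟨h1, h2, h3, h4⟩ := pq_coeff k w
  obtain ⟨h1', h2', h3', h4'⟩ := pq_coeff k w'
  have hP : (pq k w).1 = (pq k w').1 := by
    have := congrArg Prod.fst h
    exact this
  have hQ : (pq k w).2 + C (b : K) * (pq k w).1 = (pq k w').2 + C (b' : K) * (pq k w').1 := by
    have := congrArg Prod.snd h
    exact this
  have hb : (b : K) = (b' : K) := by
    have h5 := congrArg (fun P => P.coeff k) hQ
    rw [coeff_add, coeff_add, coeff_C_mul, coeff_C_mul, h3 _ le_rfl, h3' _ le_rfl, ← hP] at h5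
    simpa [h1] using h5
  have hQ' : (pq k w).2 = (pq k w').2 := by
    rw [hb, hP] at hQ
    exact add_right_cancel hQ
  rw [pq_inj k (Prod.ext hP hQ'), Units.ext hb]

/-- pairs of polynomials of degree at most `k`, the first one with constant term `1` -/
def Om (k : ℕ) (y : K[X] × K[X]) : Prop :=
  y.1.coeff 0 = 1 ∧ (∀ j, k < j → y.1.coeff j = 0) ∧ ∀ j, k < j → y.2.coeff j = 0

theorem FF_Om (k : ℕ) (w : (Fin k → Kˣ × Kˣ) × Kˣ) : Om k (FF k w) := by
  obtain ⟨h1, h2, h3, h4⟩ := pq_coeff k w.1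
  refine ⟨h4, h2, fun j hj => ?_⟩
  simp only [FF, fn, coeff_add, coeff_C_mul]
  rw [h2 j hj, h3 j (by omega)]
  simp

/-- coordinates -/
noncomputable def enc (k : ℕ) (y : K[X] × K[X]) : (Fin k → K) × (Fin (k + 1) → K) :=
  (fun i => y.1.coeff (i + 1), fun i => y.2.coeff i)

theorem enc_inj {k : ℕ} {y z : K[X] × K[X]} (hy : Om k y) (hz : Om k z)
    (h : enc k y = enc k z) : y = z := by
  have h1 := congrArg Prod.fst h
  have h2 := congrArg Prod.snd h
  refine Prod.ext (Polynomial.ext fun j => ?_) (Polynomial.ext fun j => ?_)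
  · rcases j with _ | j
    · rw [hy.1, hz.1]
    · by_cases hj : j < k
      · exact congrFun h1 ⟨j, hj⟩
      · rw [hy.2.1 _ (by omega), hz.2.1 _ (by omega)]
  · by_cases hj : j < k + 1
    · exact congrFun h2 ⟨j, hj⟩
    · rw [hy.2.2 _ (by omega), hz.2.2 _ (by omega)]

/-- multiplication by `l` modulo `m` -/
noncomputable def red (m l : K[X]) (y : K[X]) : K[X] := (l * y) %ₘ m

theorem red_coeff_high {m : K[X]} (hm : m.Monic) {k : ℕ} (hd : m.natDegree = k + 1) (l y : K[X])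
    (j : ℕ) (hj : k < j) : (red m l y).coeff j = 0 := by
  have hne : m ≠ 1 := by
    intro h
    rw [h, natDegree_one] at hd
    omega
  have h1 : (red m l y).natDegree < m.natDegree := natDegree_modByMonic_lt _ hm hne
  exact coeff_eq_zero_of_natDegree_lt (by omega)

theorem red_coeff_zero {m : K[X]} (h0 : m.coeff 0 = 0) (l y : K[X]) :
    (red m l y).coeff 0 = l.coeff 0 * y.coeff 0 := by
  have h1 := congrArg (fun P => P.coeff 0) (modByMonic_add_div (l * y) m)
  have h2 : (m * ((l * y) /ₘ m)).coeff 0 = 0 := by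
    rw [mul_coeff_zero, h0, zero_mul]
  rw [coeff_add, h2, add_zero, mul_coeff_zero] at h1
  exact h1

theorem red_eq {m : K[X]} {a b y z : K[X]} (h : red m a y = red m b z) : m ∣ a * y - b * z := by
  have h1 := modByMonic_add_div (a * y) m
  have h2 := modByMonic_add_div (b * z) m
  unfold red at h
  rw [h] at h1
  exact ⟨(a * y) /ₘ m - (b * z) /ₘ m, by linear_combination h2 - h1⟩

theorem eq_of_dvd {m : K[X]} {k : ℕ} (hd : m.natDegree = k + 1) {y z : K[X]}
    (hy : ∀ j, k < j → y.coeff j = 0) (hz : ∀ j, k < j → z.coeff j = 0) (h : m ∣ y - z) :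
    y = z := by
  rw [← sub_eq_zero]
  refine eq_zero_of_dvd_of_natDegree_lt h ?_
  rw [hd]
  refine Nat.lt_succ_of_le (natDegree_le_iff_coeff_eq_zero.2 fun j hj => ?_)
  rw [coeff_sub, hy j hj, hz j hj, sub_zero]

theorem card_pow_le [Fintype K] [DecidableEq K] (k : ℕ) :
    Fintype.card ((Fin k → K) × (Fin (k + 1) → K)) = Fintype.card K ^ (2 * k + 1) ∧
      Fintype.card ((Fin k → Kˣ × Kˣ) × Kˣ) = (Fintype.card K - 1) ^ (2 * k + 1) := by
  simp only [Fintype.card_prod, Fintype.card_fun, Fintype.card_fin, Fintype.card_units]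
  constructor
  · rw [← pow_add]; congr 1; omega
  · rw [← pow_two, ← pow_mul, pow_succ]

/-- Two pairs reached differ, modulo `t χ`, by a small positive power of `l`. -/
theorem collide [Fintype K] [DecidableEq K] {k M : ℕ} {χ l : K[X]} (hχ : χ.Monic)
    (hd : χ.natDegree = k) (hl0 : l.coeff 0 = 1) (hl : IsCoprime χ l)
    (hM : Fintype.card K ^ (2 * k + 1) < M * (Fintype.card K - 1) ^ (2 * k + 1)) :
    ∃ j, 1 ≤ j ∧ j < M ∧ ∃ w w' : (Fin k → Kˣ × Kˣ) × Kˣ,
      χ ∣ (FF k w).1 - l ^ j * (FF k w').1 ∧ χ ∣ (FF k w).2 - l ^ j * (FF k w').2 := by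
  set m : K[X] := X * χ with hm
  have hmm : m.Monic := monic_X.mul hχ
  have hmd : m.natDegree = k + 1 := by
    rw [hm, natDegree_mul X_ne_zero hχ.ne_zero, natDegree_X, hd, Nat.add_comm]
  have hm0 : m.coeff 0 = 0 := by rw [hm, mul_coeff_zero]; simp
  have hlX : IsCoprime (X : K[X]) l := by
    refine ⟨-(divX l), 1, ?_⟩
    have h1 := divX_mul_X_add l
    rw [hl0, C_1] at h1
    linear_combination -h1
  have hlm : IsCoprime m l := hlX.mul_left hl
  have hpow : ∀ i, IsCoprime m (l ^ i) := fun i => hlm.pow_right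
  have hc0 : ∀ i : ℕ, (l ^ i).coeff 0 = 1 := by
    intro i
    rw [coeff_zero_eq_eval_zero, eval_pow, ← coeff_zero_eq_eval_zero, hl0, one_pow]
  have hOm : ∀ (i : ℕ) (w : (Fin k → Kˣ × Kˣ) × Kˣ),
      Om k (red m (l ^ i) (FF k w).1, red m (l ^ i) (FF k w).2) := by
    intro i w
    obtain ⟨h1, h2, h3⟩ := FF_Om k w
    refine ⟨?_, red_coeff_high hmm hmd _ _, red_coeff_high hmm hmd _ _⟩
    rw [red_coeff_zero hm0, hc0, h1, one_mul]
  have hcard : Fintype.card ((Fin k → K) × (Fin (k + 1) → K))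
      < Fintype.card (Fin M × ((Fin k → Kˣ × Kˣ) × Kˣ)) := by
    rw [(card_pow_le (K := K) k).1, Fintype.card_prod (Fin M), Fintype.card_fin,
      (card_pow_le (K := K) k).2]
    exact hM
  obtain ⟨⟨i, w⟩, ⟨i', w'⟩, hne, heq⟩ := Fintype.exists_ne_map_eq_of_card_lt
    (fun z : Fin M × ((Fin k → Kˣ × Kˣ) × Kˣ) =>
      enc k (red m (l ^ (z.1 : ℕ)) (FF k z.2).1, red m (l ^ (z.1 : ℕ)) (FF k z.2).2)) hcard
  -- main argument for `i ≤ i'`
  have key : ∀ (i i' : Fin M) (w w' : (Fin k → Kˣ × Kˣ) × Kˣ), (i, w) ≠ (i', w') →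
      (i : ℕ) ≤ i' →
      enc k (red m (l ^ (i : ℕ)) (FF k w).1, red m (l ^ (i : ℕ)) (FF k w).2)
        = enc k (red m (l ^ (i' : ℕ)) (FF k w').1, red m (l ^ (i' : ℕ)) (FF k w').2) →
      ∃ j, 1 ≤ j ∧ j < M ∧ ∃ w w' : (Fin k → Kˣ × Kˣ) × Kˣ,
        χ ∣ (FF k w).1 - l ^ j * (FF k w').1 ∧ χ ∣ (FF k w).2 - l ^ j * (FF k w').2 := by
    intro i i' w w' hne hle heq
    have h1 := enc_inj (hOm i w) (hOm i' w') heq
    have hp : l ^ (i' : ℕ) = l ^ (i : ℕ) * l ^ ((i' : ℕ) - i) := by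
      rw [← pow_add]; congr 1; omega
    have hstep : ∀ y z : K[X], red m (l ^ (i : ℕ)) y = red m (l ^ (i' : ℕ)) z →
        m ∣ y - l ^ ((i' : ℕ) - i) * z := by
      intro y z hyz
      have h2 := red_eq hyz
      rw [hp] at h2
      have h3 : l ^ (i : ℕ) * y - l ^ (i : ℕ) * l ^ ((i' : ℕ) - i) * z
          = l ^ (i : ℕ) * (y - l ^ ((i' : ℕ) - i) * z) := by ring
      rw [h3] at h2
      exact (hpow i).dvd_of_dvd_mul_left h2
    have h4 := hstep _ _ (congrArg Prod.fst h1)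
    have h5 := hstep _ _ (congrArg Prod.snd h1)
    have hχm : χ ∣ m := ⟨X, by rw [hm, mul_comm]⟩
    refine ⟨(i' : ℕ) - i, ?_, by omega, w, w', hχm.trans h4, hχm.trans h5⟩
    by_contra hcon
    have h6 : (i' : ℕ) - i = 0 := by omega
    rw [h6, pow_zero, one_mul] at h4 h5
    obtain ⟨-, a2, a3⟩ := FF_Om k w
    obtain ⟨-, b2, b3⟩ := FF_Om k w'
    have h7 : FF k w = FF k w' := Prod.ext (eq_of_dvd hmd a2 b2 h4) (eq_of_dvd hmd a3 b3 h5)
    exact hne (Prod.ext (Fin.ext (by dsimp only; omega)) (FF_inj k h7))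
  rcases Nat.le_total (i : ℕ) i' with h | h
  · exact key i i' w w' hne h heq
  · exact key i' i w' w hne.symm h heq.symm

end Pool.Agent.Work.MP_936a99_q81
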