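import Pool.Agent.Work.MP_936a99_q81.Pick
import Pool.Agent.Work.MP_936a99_al_h7.Final

/-!
# Definitions and statements of the blocks
-/

namespace Pool.Agent.Work.MP_936a99_q81

open Matrix Polynomial Pool.Agent.Work.MP_936a99_al_h7

section defs

variable {n k : ℕ} {K : Type*} [Field K]

/-- `f h u` -/
def XX (u : Matrix (Fin n) (Fin k) K) (f : Matrix (Fin k) (Fin n) K) (h : SLn n K) :
    Matrix (Fin k) (Fin k) K := f * (h : Matrix (Fin n) (Fin n) K) * u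

/-- `f h⁻¹ u` -/
def YY (u : Matrix (Fin n) (Fin k) K) (f : Matrix (Fin k) (Fin n) K) (h : SLn n K) :
    Matrix (Fin k) (Fin k) K := f * ((h⁻¹ : SLn n K) : Matrix (Fin n) (Fin n) K) * u

/-- `T(h) = (f h u) (f h⁻¹ u)` -/
def TT (u : Matrix (Fin n) (Fin k) K) (f : Matrix (Fin k) (Fin n) K) (h : SLn n K) :
    Matrix (Fin k) (Fin k) K := XX u f h * YY u f h

/-- `s (1 + u M f)` is a word of length at most `L`, for some nonzero scalar `s` -/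
def Av (A : Set (SLn n K)) (u : Matrix (Fin n) (Fin k) K) (f : Matrix (Fin k) (Fin n) K) (L : ℕ)
    (M : Matrix (Fin k) (Fin k) K) : Prop :=
  ∃ (γ : SLn n K) (s : K), s ≠ 0 ∧ Reach A L γ ∧
    (γ : Matrix (Fin n) (Fin n) K) = s • (1 + u * M * f)

end defs

/-- SPAN: the matrices `T(h)`, `h` a short word, span all matrices. -/
def Stmt_SPAN : Prop := ∀ (n k p : ℕ) [Fact p.Prime] (A : Set (SLn n (ZMod p)))
  (u : Matrix (Fin n) (Fin k) (ZMod p)) (f : Matrix (Fin k) (Fin n) (ZMod p)),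
  Subgroup.closure A = ⊤ → f * u = 0 → (∃ f' : Matrix (Fin k) (Fin n) (ZMod p), f' * u = 1) →
  (∃ u' : Matrix (Fin n) (Fin k) (ZMod p), f * u' = 1) →
  Submodule.span (ZMod p) {T : Matrix (Fin k) (Fin k) (ZMod p) |
    ∃ h, Reach A ((2 * n ^ 2 + 1) ^ 2) h ∧ T = TT u f h} = ⊤

/-- FACT: shape of an element which is quadratic modulo scalars. -/
def Stmt_FACT : Prop := ∀ (n p : ℕ) [Fact p.Prime] (w : SLn n (ZMod p)) (c : ZMod p),
  ((w : Matrix (Fin n) (Fin n) (ZMod p)) - c • 1) ^ 2 = 0 →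
  (∀ d : ZMod p, (w : Matrix (Fin n) (Fin n) (ZMod p)) ≠ d • 1) →
  ∃ k : ℕ, k = ((w : Matrix (Fin n) (Fin n) (ZMod p)) - c • 1).rank ∧ 1 ≤ k ∧ k ≤ n ∧ c ≠ 0 ∧
    ∃ (u : Matrix (Fin n) (Fin k) (ZMod p)) (f : Matrix (Fin k) (Fin n) (ZMod p)),
      f * u = 0 ∧ (∃ f' : Matrix (Fin k) (Fin n) (ZMod p), f' * u = 1) ∧
      (∃ u' : Matrix (Fin n) (Fin k) (ZMod p), f * u' = 1) ∧
      (w : Matrix (Fin n) (Fin n) (ZMod p)) = c • (1 + u * f)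

/-- IRR: irreducible polynomials of every degree. -/
def Stmt_IRR : Prop := ∀ (p : ℕ) [Fact p.Prime] (d : ℕ), 1 ≤ d →
  ∃ g : (ZMod p)[X], g.Monic ∧ Irreducible g ∧ g.natDegree = d

/-- NUM: choice of the parameters `M` and `d`. -/
def Stmt_NUM : Prop := ∃ p0 : ℕ, ∀ p : ℕ, p0 ≤ p → ∀ k : ℕ, (k : ℝ) ≤ p * Real.log p / 8 →
  ∃ M d : ℕ, 2 ≤ d ∧ d < p ∧ 2 * M < p ∧ p ^ (2 * k + 1) < M * (p - 1) ^ (2 * k + 1) ∧
    (M - 1) * (2 * (M - 1) * d) + k / d < p ∧ M ≤ 60 * (k + 1) ∧ d ≤ k + 2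

end Pool.Agent.Work.MP_936a99_q81
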