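import Pool.Agent.Work.MP_936a99_q81.Defs
import Mathlib.FieldTheory.Finite.GaloisField
import Mathlib.FieldTheory.PrimitiveElement

/-!
# IRR: irreducible polynomials of every degree
-/

namespace Pool.Agent.Work.MP_936a99_q81

open Polynomial

theorem irr_thm : Stmt_IRR := by
  intro p hp d hd
  have hd0 : d ≠ 0 := by omega
  obtain ⟨α, hα⟩ := Field.exists_primitive_element (ZMod p) (GaloisField p d)
  have hint : IsIntegral (ZMod p) α := Algebra.IsIntegral.isIntegral α
  refine ⟨minpoly (ZMod p) α, minpoly.monic hint, minpoly.irreducible hint, ?_⟩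
  have h1 := (Field.primitive_element_iff_minpoly_natDegree_eq (ZMod p) α).mp hα
  rw [h1, GaloisField.finrank p hd0]

end Pool.Agent.Work.MP_936a99_q81
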