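import Mathlib

/-!
# Interpolation: `T` is a combination of the powers `g (T + s) ^ J`
-/

namespace Pool.Agent.Work.MP_936a99_q81

open Polynomial

variable {K : Type*} [Field K]

theorem taylorXX_eval (g : K[X]) (s : K) :
    (taylor (X : K[X]) (g.map C)).eval (C s) = taylor s g := by
  rw [taylor_eval, taylor_apply, eval_map, comp, add_comm]

theorem taylorXX_monic {g : K[X]} (hg : g.Monic) : (taylor (X : K[X]) (g.map C)).Monic := by
  have : (taylor (X : K[X]) (g.map C)).leadingCoeff = 1 := by
    rw [leadingCoeff_taylor]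
    exact hg.map C
  exact this

theorem taylorXX_next {g : K[X]} (hg : g.Monic) {d : ℕ} (hd : g.natDegree = d) (hd1 : 1 ≤ d) :
    (taylor (X : K[X]) (g.map C)).nextCoeff = C (d : K) * X + C (g.coeff (d - 1)) := by
  have hd' : (g.map (C : K →+* K[X])).natDegree = d := by
    rw [natDegree_map_eq_of_injective C_injective, hd]
  have h1 : (hasseDeriv (d - 1) (g.map (C : K →+* K[X]))).natDegree ≤ 1 := by
    refine (natDegree_hasseDeriv_le _ _).trans ?_
    rw [hd']; omega
  rw [nextCoeff_of_natDegree_pos (by rw [natDegree_taylor, hd']; omega), natDegree_taylor, hd',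
    taylor_coeff, eq_X_add_C_of_natDegree_le_one h1, hasseDeriv_coeff, hasseDeriv_coeff]
  have e1 : 1 + (d - 1) = d := by omega
  have e2 : 0 + (d - 1) = d - 1 := by omega
  rw [e1, e2, Nat.choose_self, coeff_map, coeff_map]
  have e3 : d.choose (d - 1) = d := by
    rw [Nat.choose_symm (by omega : 1 ≤ d), Nat.choose_one_right]
  have e4 : g.coeff d = 1 := by rw [← hd]; exact hg
  rw [e3, e4]
  simp

theorem interp {k : ℕ} (T : Matrix (Fin k) (Fin k) K) {g : K[X]} (hg : g.Monic) {d : ℕ}
    (hd : g.natDegree = d) (hd1 : 1 ≤ d) {J : ℕ} (hJ1 : 1 ≤ J) (hJ : (J : K) ≠ 0)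
    (hdK : (d : K) ≠ 0) (S : Finset K) (hS : J * d + 1 ≤ S.card) :
    T ∈ Submodule.span K (insert 1 ((fun s => (aeval T (taylor s g)) ^ J) '' (S : Set K))) := by
  by_contra hcon
  obtain ⟨φ, hφT, hφ⟩ := Submodule.exists_le_ker_of_notMem hcon
  have hφ' : ∀ v ∈ insert 1 ((fun s => (aeval T (taylor s g)) ^ J) '' (S : Set K)), φ v = 0 := by
    intro v hv
    have := hφ (Submodule.subset_span hv)
    simpa using this
  have hφ1 : φ 1 = 0 := hφ' 1 (Set.mem_insert _ _)
  have hφS : ∀ s ∈ S, φ ((aeval T (taylor s g)) ^ J) = 0 := fun s hs =>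
    hφ' _ (Set.mem_insert_of_mem _ ⟨s, hs, rfl⟩)
  set H : K[X][X] := taylor (X : K[X]) (g.map C) with hH
  have hHm : H.Monic := taylorXX_monic hg
  have hHd : H.natDegree = d := by
    rw [hH, natDegree_taylor, natDegree_map_eq_of_injective C_injective, hd]
  set G : K[X][X] := H ^ J with hG
  have hGm : G.Monic := hHm.pow J
  have hGd : G.natDegree = J * d := by rw [hG, hHm.natDegree_pow, hHd]
  set q : K[X] := ∑ i ∈ Finset.range (J * d + 1), C (φ (aeval T (G.coeff i))) * X ^ i with hq
  have hqd : q.natDegree ≤ J * d := by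
    refine natDegree_sum_le_of_forall_le _ _ fun i hi => ?_
    refine (natDegree_C_mul_X_pow_le _ _).trans ?_
    have := Finset.mem_range.1 hi
    omega
  have hqe : ∀ s : K, q.eval s = φ ((aeval T (taylor s g)) ^ J) := by
    intro s
    have h1 : (taylor s g) ^ J = ∑ i ∈ Finset.range (J * d + 1), G.coeff i * C s ^ i := by
      have h2 : G.eval (C s) = (taylor s g) ^ J := by
        rw [hG, eval_pow, hH, taylorXX_eval]
      rw [← h2, eval_eq_sum_range, hGd]
    rw [← map_pow, h1, map_sum, map_sum, hq, eval_finsetSum]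
    refine Finset.sum_congr rfl fun i _ => ?_
    rw [eval_mul, eval_C, eval_pow, eval_X, map_mul, map_pow, aeval_C, ← map_pow,
      ← Algebra.commutes, ← Algebra.smul_def, map_smul, smul_eq_mul, mul_comm]
  have hq0 : q = 0 := by
    refine eq_zero_of_natDegree_lt_card_of_eval_eq_zero' q S (fun s hs => ?_) (by omega)
    rw [hqe, hφS s hs]
  have hJd : 1 ≤ J * d := Nat.mul_pos hJ1 hd1
  have hc : φ (aeval T (G.coeff (J * d - 1))) = 0 := by
    have h1 : q.coeff (J * d - 1) = φ (aeval T (G.coeff (J * d - 1))) := by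
      rw [hq, finsetSum_coeff]
      simp only [coeff_C_mul, coeff_X_pow]
      rw [Finset.sum_eq_single (J * d - 1)]
      · simp
      · intro b _ hb
        simp [Ne.symm hb]
      · intro h
        exact absurd (Finset.mem_range.2 (by omega)) h
    rw [← h1, hq0, coeff_zero]
  have hn : G.coeff (J * d - 1) = J • (C (d : K) * X + C (g.coeff (d - 1))) := by
    have h1 : G.nextCoeff = J • H.nextCoeff := by rw [hG, hHm.nextCoeff_pow]
    rw [nextCoeff_of_natDegree_pos (by rw [hGd]; omega), hGd] at h1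
    rw [h1, hH, taylorXX_next hg hd hd1]
  rw [hn, map_nsmul, map_nsmul, map_add, map_add, map_mul, aeval_C, aeval_C, aeval_X,
    ← Algebra.smul_def, map_smul, Algebra.algebraMap_eq_smul_one, map_smul, hφ1, smul_zero,
    add_zero, nsmul_eq_mul, smul_eq_mul] at hc
  rcases mul_eq_zero.1 hc with h | h
  · exact hJ h
  · rcases mul_eq_zero.1 h with h | h
    · exact hdK h
    · exact hφT h

end Pool.Agent.Work.MP_936a99_q81
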