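import Pool.Agent.Work.MP_936a99_q81.Defs

/-!
# NUM: choice of the parameters
-/

namespace Pool.Agent.Work.MP_936a99_q81

theorem num_thm : Stmt_NUM := by
  refine ⟨⌈Real.exp 24⌉₊, ?_⟩
  intro p hp k hk
  have hpR : Real.exp 24 ≤ (p : ℝ) := le_trans (Nat.le_ceil _) (by exact_mod_cast hp)
  have hp0 : (0 : ℝ) < p := lt_of_lt_of_le (Real.exp_pos _) hpR
  set L := Real.log p with hL
  have hL24 : 24 ≤ L := by
    rw [hL, Real.le_log_iff_exp_le hp0]; exact hpR
  have hexpL : Real.exp L = p := Real.exp_log hp0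
  set y := Real.exp (L / 3) with hy
  have hy0 : 0 < y := Real.exp_pos _
  have hy3 : y ^ 3 = p := by
    rw [hy, ← Real.exp_nat_mul, ← hexpL]
    congr 1
    push_cast
    ring
  have hyq : L + 8 < y := by
    have h1 := Real.quadratic_le_exp_of_nonneg (show 0 ≤ L / 3 by linarith)
    rw [← hy] at h1
    nlinarith
  have hp1 : (25 : ℝ) ≤ p := by
    have h1 := Real.add_one_le_exp (24 : ℝ)
    linarith
  have hpN : 25 ≤ p := by exact_mod_cast hp1
  have hk0 : (0 : ℝ) ≤ k := Nat.cast_nonneg k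
  have hq0 : (0 : ℝ) < (p : ℝ) - 1 := by linarith
  set a : ℝ := (2 * k + 1) / (p - 1) with ha
  have ha0 : 0 ≤ a := div_nonneg (by linarith) hq0.le
  have haL : a ≤ L / 3 := by
    rw [ha, div_le_iff₀ hq0]
    nlinarith
  have hfl : ((⌊Real.exp a⌋₊ : ℕ) : ℝ) ≤ Real.exp a := Nat.floor_le (Real.exp_pos a).le
  have hflt : Real.exp a < (⌊Real.exp a⌋₊ : ℕ) + 1 := Nat.lt_floor_add_one _
  have hay : Real.exp a ≤ y := Real.exp_le_exp.mpr haL
  have hFy : ((⌊Real.exp a⌋₊ : ℕ) : ℝ) ≤ y := hfl.trans hay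
  have hdk : ((2 * k / p : ℕ) : ℝ) ≤ L / 4 := by
    have h1 : ((2 * k / p : ℕ) : ℝ) ≤ ((2 * k : ℕ) : ℝ) / (p : ℝ) := Nat.cast_div_le
    refine h1.trans ?_
    rw [div_le_iff₀ hp0]
    push_cast
    nlinarith
  set F := ⌊Real.exp a⌋₊ with hF
  set D := 2 * k / p with hD
  have hF0 : (0 : ℝ) ≤ F := Nat.cast_nonneg _
  have hD0 : (0 : ℝ) ≤ D := Nat.cast_nonneg _
  have hLp : L ≤ p - 1 := Real.log_le_sub_one_of_pos hp0
  refine ⟨F + 1, D + 2, Nat.le_add_left 2 D, ?_, ?_, ?_, ?_, ?_, ?_⟩
  · have h1 : ((D + 2 : ℕ) : ℝ) < p := by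
      push_cast
      linarith
    exact_mod_cast h1
  · have h1 : ((2 * (F + 1) : ℕ) : ℝ) < p := by
      push_cast
      rw [← hy3]
      have hy32 : 32 < y := by linarith
      have hyy : 32 * y < y * y := mul_lt_mul_of_pos_right hy32 hy0
      have hyyy : 4 * y < y * y * y := by
        have h2 : y * 32 < y * (y * y) := mul_lt_mul_of_pos_left (by linarith) hy0
        nlinarith
      have h3 : y ^ 3 = y * y * y := by ring
      rw [h3]
      linarith
    exact_mod_cast h1
  · have h1 : (p : ℝ) ^ (2 * k + 1) < ((F + 1 : ℕ) : ℝ) * ((p : ℝ) - 1) ^ (2 * k + 1) := by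
      have h2 : ((p : ℝ) / (p - 1)) ^ (2 * k + 1) ≤ Real.exp a := by
        have h3 : (p : ℝ) / (p - 1) ≤ Real.exp (1 / (p - 1)) := by
          have h4 := Real.add_one_le_exp (1 / ((p : ℝ) - 1))
          have h5 : (p : ℝ) / (p - 1) = 1 / ((p : ℝ) - 1) + 1 := by
            field_simp
            ring
          rw [h5]
          exact h4
        calc ((p : ℝ) / (p - 1)) ^ (2 * k + 1) ≤ (Real.exp (1 / (p - 1))) ^ (2 * k + 1) :=
              pow_le_pow_left₀ (div_nonneg hp0.le hq0.le) h3 _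
          _ = Real.exp a := by
              rw [← Real.exp_nat_mul, ha]
              congr 1
              push_cast
              ring
      have h6 : ((p : ℝ) / (p - 1)) ^ (2 * k + 1) < ((F + 1 : ℕ) : ℝ) := by
        push_cast
        exact lt_of_le_of_lt h2 hflt
      rw [div_pow, div_lt_iff₀ (pow_pos hq0 _)] at h6
      exact h6
    have h7 : ((p - 1 : ℕ) : ℝ) = (p : ℝ) - 1 := by
      rw [Nat.cast_sub (by omega)]
      push_cast
      ring
    have h8 : ((p ^ (2 * k + 1) : ℕ) : ℝ) < (((F + 1) * (p - 1) ^ (2 * k + 1) : ℕ) : ℝ) := by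
      rw [Nat.cast_pow, Nat.cast_mul, Nat.cast_pow, h7]
      exact h1
    exact_mod_cast h8
  · have h1 : (((F + 1 - 1) * (2 * (F + 1 - 1) * (D + 2)) + k / (D + 2) : ℕ) : ℝ) < p := by
      have h2 : ((k / (D + 2) : ℕ) : ℝ) ≤ (p : ℝ) / 2 := by
        have h3 : ((k / (D + 2) : ℕ) : ℝ) ≤ (k : ℝ) / ((D + 2 : ℕ) : ℝ) := Nat.cast_div_le
        refine h3.trans ?_
        have h4 : (0 : ℝ) < ((D + 2 : ℕ) : ℝ) := by positivity
        rw [div_le_iff₀ h4]
        have h5 : 2 * k < p * (D + 1) := by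
          rw [hD]
          exact Nat.lt_mul_div_succ _ (by omega)
        have h6 : ((2 * k : ℕ) : ℝ) < ((p * (D + 1) : ℕ) : ℝ) := by exact_mod_cast h5
        push_cast at h6 ⊢
        nlinarith
      have h7 : (F : ℝ) * (2 * F * (D + 2)) < p / 2 := by
        have h8 : (F : ℝ) * (2 * F * (D + 2)) ≤ y * (2 * y * (L / 4 + 2)) := by
          have h9 : (F : ℝ) * F ≤ y * y := mul_le_mul hFy hFy hF0 hy0.le
          have h10 : (F : ℝ) * F * (D + 2) ≤ y * y * (L / 4 + 2) :=
            mul_le_mul h9 (by linarith) (by linarith) (by positivity)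
          nlinarith
        refine lt_of_le_of_lt h8 ?_
        rw [← hy3]
        have h11 : y * y * (L + 8) < y * y * y := by
          have : 0 < y * y := by positivity
          exact mul_lt_mul_of_pos_left hyq this
        nlinarith
      have h12 : F + 1 - 1 = F := by omega
      rw [h12]
      push_cast
      linarith
    exact_mod_cast h1
  · by_cases hkp : k < p
    · have h1 : a ≤ 3 := by
        rw [ha, div_le_iff₀ hq0]
        have h2 : (k : ℝ) + 1 ≤ p := by exact_mod_cast hkp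
        nlinarith
      have h2 : Real.exp a ≤ Real.exp 3 := Real.exp_le_exp.mpr h1
      have h3 : Real.exp 3 < 28 := by
        have h4 : Real.exp 3 = Real.exp 1 ^ 3 := by
          rw [← Real.exp_nat_mul]
          norm_num
        have h5 := Real.exp_one_lt_d9
        have h6 : Real.exp 1 < 3 := by linarith
        have h7 : 0 < Real.exp 1 := Real.exp_pos 1
        rw [h4]
        calc Real.exp 1 ^ 3 < 3 ^ 3 := pow_lt_pow_left₀ h6 h7.le (by norm_num)
          _ ≤ 28 := by norm_num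
      have h4 : (F : ℝ) < 28 := by linarith
      have h5 : F < 28 := by exact_mod_cast h4
      omega
    · have hkp' : p ≤ k := by omega
      have h1 : y ≤ p := by
        rw [← hy3]
        nlinarith [sq_nonneg (y - 1)]
      have h2 : (F : ℝ) ≤ p := hFy.trans h1
      have h3 : F ≤ p := by exact_mod_cast h2
      omega
  · have h1 : 2 * k / p ≤ k := by
      apply Nat.div_le_of_le_mul
      nlinarith
    omega

end Pool.Agent.Work.MP_936a99_q81
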