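import Pool.Agent.Work.MP_936a99_q81.Count
import Pool.Agent.Work.MP_936a99_q81.Interp

/-!
# Choice of many good shifts of an irreducible polynomial
-/

namespace Pool.Agent.Work.MP_936a99_q81

open Polynomial

variable {K : Type*} [Field K]

theorem taylor_irred {g : K[X]} (hg : Irreducible g) (s : K) : Irreducible (taylor s g) := by
  have := (MulEquiv.irreducible_iff (taylorEquiv s).toMulEquiv (x := g)).2 hg
  exact this

theorem taylor_monic {g : K[X]} (hg : g.Monic) (s : K) : (taylor s g).Monic := by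
  have : (taylor s g).leadingCoeff = 1 := by rw [leadingCoeff_taylor]; exact hg
  exact this

theorem taylor_next {g : K[X]} (hg : g.Monic) {d : ℕ} (hd : g.natDegree = d) (hd1 : 1 ≤ d)
    (s : K) : (taylor s g).coeff (d - 1) = d * s + g.coeff (d - 1) := by
  have h1 : (hasseDeriv (d - 1) g).natDegree ≤ 1 := by
    refine (natDegree_hasseDeriv_le _ _).trans ?_
    omega
  rw [taylor_coeff, eq_X_add_C_of_natDegree_le_one h1, hasseDeriv_coeff, hasseDeriv_coeff]
  have e1 : 1 + (d - 1) = d := by omega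
  have e2 : 0 + (d - 1) = d - 1 := by omega
  have e3 : d.choose (d - 1) = d := by
    rw [Nat.choose_symm (by omega : 1 ≤ d), Nat.choose_one_right]
  have e4 : g.coeff d = 1 := by rw [← hd]; exact hg
  rw [e1, e2, Nat.choose_self, e3, e4]
  simp

theorem taylor_coprime {g : K[X]} (hg : g.Monic) (hgi : Irreducible g) {d : ℕ}
    (hd : g.natDegree = d) (hd1 : 1 ≤ d) (hdK : (d : K) ≠ 0) {s s' : K} (hs : s ≠ s') :
    IsCoprime (taylor s g) (taylor s' g) := by
  rw [(taylor_irred hgi s).coprime_iff_not_dvd]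
  intro hdvd
  have h1 : Associated (taylor s g) (taylor s' g) :=
    (taylor_irred hgi s).associated_of_dvd (taylor_irred hgi s') hdvd
  have h2 := eq_of_monic_of_associated (taylor_monic hg s) (taylor_monic hg s') h1
  have h3 := congrArg (fun P => P.coeff (d - 1)) h2
  simp only [taylor_next hg hd hd1] at h3
  exact hs (mul_left_cancel₀ hdK (add_right_cancel h3))

theorem card_bad [DecidableEq K] {χ g : K[X]} {k d : ℕ} (hχ : χ.Monic) (hχd : χ.natDegree = k)
    (hg : g.Monic) (hgi : Irreducible g) (hd : g.natDegree = d) (hd1 : 1 ≤ d)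
    (hdK : (d : K) ≠ 0) (B : Finset K) (hB : ∀ s ∈ B, taylor s g ∣ χ) : B.card * d ≤ k := by
  have h1 : (∏ s ∈ B, taylor s g) ∣ χ := by
    refine Finset.prod_dvd_of_coprime ?_ hB
    intro s _ s' _ hss
    exact taylor_coprime hg hgi hd hd1 hdK hss
  have h2 := natDegree_le_of_dvd h1 hχ.ne_zero
  rw [natDegree_prod_of_monic _ _ (fun s _ => taylor_monic hg s), hχd] at h2
  simp only [natDegree_taylor, hd, Finset.sum_const, smul_eq_mul] at h2
  exact h2

/-- normalised shift: constant term `1` -/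
noncomputable def lam (g : K[X]) (s : K) : K[X] := C (g.eval s)⁻¹ * taylor s g

/-- the pairs of words which realise the power `l ^ j` -/
def Real (k : ℕ) (χ l : K[X]) (j : ℕ) : Prop :=
  ∃ w w' : (Fin k → Kˣ × Kˣ) × Kˣ,
    χ ∣ (FF k w).1 - l ^ j * (FF k w').1 ∧ χ ∣ (FF k w).2 - l ^ j * (FF k w').2

theorem pick [Fintype K] [DecidableEq K] {χ g : K[X]} {k d M : ℕ} (hχ : χ.Monic)
    (hχd : χ.natDegree = k) (hg : g.Monic) (hgi : Irreducible g) (hd : g.natDegree = d)
    (hd2 : 2 ≤ d) (hdK : (d : K) ≠ 0)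
    (hM : Fintype.card K ^ (2 * k + 1) < M * (Fintype.card K - 1) ^ (2 * k + 1))
    (hcount : (M - 1) * (2 * (M - 1) * d) + k / d < Fintype.card K) :
    ∃ j, 1 ≤ j ∧ j < M ∧ ∃ S : Finset K, S.card = 2 * j * d + 1 ∧
      ∀ s ∈ S, g.eval s ≠ 0 ∧ Real k χ (lam g s) j := by
  classical
  set Gd : Finset K := Finset.univ.filter (fun s => ¬ taylor s g ∣ χ) with hGd
  have hbad : ((Finset.univ.filter (fun s : K => taylor s g ∣ χ)).card) * d ≤ k :=
    card_bad hχ hχd hg hgi hd (by omega) hdK _ (fun s hs => (Finset.mem_filter.1 hs).2)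
  have hbad' : (Finset.univ.filter (fun s : K => taylor s g ∣ χ)).card ≤ k / d := by
    rw [Nat.le_div_iff_mul_le (by omega)]
    exact hbad
  have hsplit : (Finset.univ.filter (fun s : K => taylor s g ∣ χ)).card + Gd.card
      = Fintype.card K := by
    rw [hGd, Finset.card_filter_add_card_filter_not]
    rfl
  have hroot : ∀ s : K, g.eval s ≠ 0 := by
    intro s h0
    have h1 := degree_eq_one_of_irreducible_of_root hgi h0
    have h2 : g.natDegree = 1 := natDegree_eq_of_degree_eq_some h1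
    omega
  have hreal : ∀ s ∈ Gd, ∃ j, 1 ≤ j ∧ j < M ∧ Real k χ (lam g s) j := by
    intro s hs
    have h1 : ¬ taylor s g ∣ χ := (Finset.mem_filter.1 hs).2
    have h2 : IsCoprime χ (taylor s g) :=
      ((taylor_irred hgi s).coprime_iff_not_dvd.2 h1).symm
    have h3 : IsCoprime χ (lam g s) := by
      refine IsCoprime.mul_right ?_ h2
      refine ⟨0, C (g.eval s), ?_⟩
      rw [zero_mul, zero_add, ← C_mul, mul_inv_cancel₀ (hroot s), C_1]
    have h4 : (lam g s).coeff 0 = 1 := by
      rw [lam, coeff_C_mul, taylor_coeff_zero]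
      exact inv_mul_cancel₀ (hroot s)
    exact collide hχ hχd h4 h3 hM
  choose! f hf1 hf2 hf3 using hreal
  obtain ⟨j, hj, hcard⟩ := Finset.exists_lt_card_fiber_of_mul_lt_card_of_maps_to
    (s := Gd) (t := Finset.Ico 1 M) (f := f) (n := 2 * (M - 1) * d)
    (fun s hs => Finset.mem_Ico.2 ⟨hf1 s hs, hf2 s hs⟩) (by
      rw [Nat.card_Ico]
      generalize (M - 1) * (2 * (M - 1) * d) = Z at hcount ⊢
      generalize k / d = Y at hcount hbad'
      omega)
  rw [Finset.mem_Ico] at hj
  have h5 : 2 * j * d + 1 ≤ (Gd.filter (fun s => f s = j)).card := by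
    have : 2 * j * d ≤ 2 * (M - 1) * d := Nat.mul_le_mul_right _ (by omega)
    omega
  obtain ⟨S, hS1, hS2⟩ := Finset.exists_subset_card_eq h5
  refine ⟨j, hj.1, hj.2, S, hS2, fun s hs => ⟨hroot s, ?_⟩⟩
  have h6 := Finset.mem_filter.1 (hS1 hs)
  have h7 := hf3 s h6.1
  rw [h6.2] at h7
  exact h7

end Pool.Agent.Work.MP_936a99_q81
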